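import Mathlib

/-!
# Rectilinear connectivity of two-dimensional automatic arrays
-/

namespace Pool.Agent.Results.MP_fadef1_lc.ZeroBlock

/-- A binary array; for a `k × l` block only the entries with `i < k`, `j < l` are used. -/
abbrev Arr := ℕ → ℕ → Bool

/-- Two cells are adjacent: they differ by one in exactly one coordinate. -/
def Adj (p q : ℕ × ℕ) : Prop :=
  (p.1 = q.1 ∧ (p.2 + 1 = q.2 ∨ q.2 + 1 = p.2)) ∨
    (p.2 = q.2 ∧ (p.1 + 1 = q.1 ∨ q.1 + 1 = p.1))

/-- One step of a path inside a set of cells. -/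
def Step (S : Set (ℕ × ℕ)) (p q : ℕ × ℕ) : Prop := Adj p q ∧ p ∈ S ∧ q ∈ S

/-- A set of cells is rectilinearly connected. -/
def Conn (S : Set (ℕ × ℕ)) : Prop :=
  ∀ p ∈ S, ∀ q ∈ S, Relation.ReflTransGen (Step S) p q

/-- The cells of an infinite array that hold `1`. -/
def ones (A : Arr) : Set (ℕ × ℕ) := {p | A p.1 p.2 = true}

/-- The cells of a `k × l` block that hold `1`. -/
def onesIn (k l : ℕ) (P : Arr) : Set (ℕ × ℕ) := {p | p.1 < k ∧ p.2 < l ∧ P p.1 p.2 = true}

/-- The array `h^r(a)` for a morphism `h` with `k × l` blocks. -/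
def power (k l : ℕ) (h : Bool → Arr) (a : Bool) : ℕ → Arr
  | 0 => fun _ _ => a
  | r + 1 => fun i j => h (power k l h a r (i / k) (j / l)) (i % k) (j % l)

/-- `A = h^ω(a)`: every `h^r(a)` is the top-left corner of `A`. -/
def IsFixedPoint (k l : ℕ) (h : Bool → Arr) (a : Bool) (A : Arr) : Prop :=
  ∀ r i j, i < k ^ r → j < l ^ r → A i j = power k l h a r i j

/-- Some row of the block has `1` at both ends, or all `1`s of the block are in its first
column. -/
def HorOK (k l : ℕ) (P : Arr) : Prop :=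
  (∃ i, i < k ∧ P i 0 = true ∧ P i (l - 1) = true) ∨
    (∀ i < k, ∀ j < l, P i j = true → j = 0)

/-- Some column of the block has `1` at both ends, or all `1`s of the block are in its first
row. -/
def VerOK (k l : ℕ) (P : Arr) : Prop :=
  (∃ j, j < l ∧ P 0 j = true ∧ P (k - 1) j = true) ∨
    (∀ i < k, ∀ j < l, P i j = true → i = 0)

/-- Every `1` of the block lies in `n` consecutive `1`s of its row in the block. -/
def RunOK (n k l : ℕ) (P : Arr) : Prop :=
  ∀ i < k, ∀ j < l, P i j = true →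
    ∃ j0 ≤ j, j < j0 + n ∧ j0 + n ≤ l ∧ ∀ t < n, P i (j0 + t) = true

/-- The row-periodic extension of `P`; its `k × (n l)` corner is `n` copies of `P` side by
side. -/
def rep (l : ℕ) (P : Arr) : Arr := fun i j => P i (j % l)

/-- Every `1` of the block lies in `n` consecutive `1`s of its row, and `n` copies of the block
side by side form a connected block. -/
def ChainOK (n k l : ℕ) (P : Arr) : Prop :=
  RunOK n k l P ∧ Conn (onesIn k (n * l) (rep l P))

/-- The transposed block. -/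
def transp (P : Arr) : Arr := fun i j => P j i

/-- A disconnected `5 × 5` block. -/
def exBlock : Arr := fun i j =>
  ([[true, true, true, true, true], [false, false, false, true, true],
    [true, true, false, true, true], [true, true, false, false, false],
    [true, true, true, true, true]].getD i []).getD j false

/-- The component of the cell `c0` in the set `P` of `1`s of a `k × l` block has contacts on two
opposite sides: it contains a cell of the first column and a cell of the last column (or a cell of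
the first row and a cell of the last row) whose opposite cells in the block also hold `1`. -/
def Crossing (k l : ℕ) (P : Set (ℕ × ℕ)) (c0 : ℕ × ℕ) : Prop :=
  ((∃ i, Relation.ReflTransGen (Step P) c0 (i, 0) ∧ (i, l - 1) ∈ P) ∧
    (∃ i, Relation.ReflTransGen (Step P) c0 (i, l - 1) ∧ (i, 0) ∈ P)) ∨
  ((∃ j, Relation.ReflTransGen (Step P) c0 (0, j) ∧ (k - 1, j) ∈ P) ∧
    (∃ j, Relation.ReflTransGen (Step P) c0 (k - 1, j) ∧ (0, j) ∈ P))

abbrev RTG (S : Set (ℕ × ℕ)) := Relation.ReflTransGen (Step S)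

lemma adj_symm {p q : ℕ × ℕ} (h : Adj p q) : Adj q p := by
  unfold Adj at *
  omega

lemma rtg_symm {S : Set (ℕ × ℕ)} {p q : ℕ × ℕ} (h : RTG S p q) : RTG S q p := by
  induction h with
  | refl => exact Relation.ReflTransGen.refl
  | tail hab hbc ih => exact ih.head ⟨adj_symm hbc.1, hbc.2.2, hbc.2.1⟩

lemma row_path {S : Set (ℕ × ℕ)} (i n : ℕ) (h : ∀ j ≤ n, (i, j) ∈ S) :
    RTG S (i, 0) (i, n) := by
  induction n with
  | zero => exact Relation.ReflTransGen.refl
  | succ n ih =>
    refine (ih (fun j hj => h j (by omega))).tail ⟨?_, h n (by omega), h _ le_rfl⟩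
    left
    exact ⟨rfl, Or.inl rfl⟩

lemma col_path {S : Set (ℕ × ℕ)} (j n : ℕ) (h : ∀ i ≤ n, (i, j) ∈ S) :
    RTG S (0, j) (n, j) := by
  induction n with
  | zero => exact Relation.ReflTransGen.refl
  | succ n ih =>
    refine (ih (fun i hi => h i (by omega))).tail ⟨?_, h n (by omega), h _ le_rfl⟩
    right
    exact ⟨rfl, Or.inl rfl⟩

lemma ivt (Q : ℕ → Prop) (n : ℕ) (h0 : Q 0) (hn : ¬ Q n) : ∃ i, i < n ∧ Q i ∧ ¬ Q (i + 1) := by
  induction n with
  | zero => exact absurd h0 hn
  | succ n ih =>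
    by_cases h : Q n
    · exact ⟨n, by omega, h, hn⟩
    · obtain ⟨i, hi, h1, h2⟩ := ih h
      exact ⟨i, by omega, h1, h2⟩

/-- The data of a self-similar set of cells. -/
structure Sub (k l : ℕ) (P S : Set (ℕ × ℕ)) : Prop where
  hk : 2 ≤ k
  hl : 2 ≤ l
  lt : ∀ p ∈ P, p.1 < k ∧ p.2 < l
  zeroP : (0, 0) ∈ P
  zeroS : (0, 0) ∈ S
  mem : ∀ p : ℕ × ℕ, p ∈ S ↔ (p.1 / k, p.2 / l) ∈ S ∧ (p.1 % k, p.2 % l) ∈ P

/-- the cell `c` of the block `u` -/
def emb (k l : ℕ) (u c : ℕ × ℕ) : ℕ × ℕ := (u.1 * k + c.1, u.2 * l + c.2)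

section
variable {k l : ℕ} {P S : Set (ℕ × ℕ)}

lemma divmod {k a b : ℕ} (hb : b < k) : (a * k + b) / k = a ∧ (a * k + b) % k = b := by
  constructor
  · rw [Nat.div_eq_iff (by omega)]
    constructor
    · omega
    · have : 1 ≤ k := by omega
      omega
  · rw [Nat.mul_comm, Nat.mul_add_mod]
    exact Nat.mod_eq_of_lt hb

lemma mem_emb (H : Sub k l P S) {u c : ℕ × ℕ} (hc1 : c.1 < k) (hc2 : c.2 < l) :
    emb k l u c ∈ S ↔ u ∈ S ∧ c ∈ P := by
  rw [H.mem]
  simp only [emb]
  rw [(divmod hc1).1, (divmod hc1).2, (divmod hc2).1, (divmod hc2).2]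

lemma emb_mem (H : Sub k l P S) {u c : ℕ × ℕ} (hu : u ∈ S) (hc : c ∈ P) :
    emb k l u c ∈ S := (mem_emb H (H.lt c hc).1 (H.lt c hc).2).2 ⟨hu, hc⟩

lemma emb_zero (c : ℕ × ℕ) : emb k l (0, 0) c = c := by
  simp [emb]

lemma P_sub_S (H : Sub k l P S) {c : ℕ × ℕ} (hc : c ∈ P) : c ∈ S := by
  have := emb_mem H H.zeroS hc
  rwa [emb_zero] at this

lemma mem_small (H : Sub k l P S) {c : ℕ × ℕ} (hc1 : c.1 < k) (hc2 : c.2 < l) :
    c ∈ S ↔ c ∈ P := by
  have := mem_emb H (u := (0, 0)) hc1 hc2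
  rw [emb_zero] at this
  rw [this]
  exact ⟨fun h => h.2, fun h => ⟨H.zeroS, h⟩⟩

lemma block_path (H : Sub k l P S) {u c c' : ℕ × ℕ} (hu : u ∈ S) (h : RTG P c c') :
    RTG S (emb k l u c) (emb k l u c') := by
  induction h with
  | refl => exact Relation.ReflTransGen.refl
  | tail hab hbc ih =>
    obtain ⟨h1, h2, h3⟩ := hbc
    refine ih.tail ⟨?_, emb_mem H hu h2, emb_mem H hu h3⟩
    unfold Adj at *
    simp only [emb]
    omega

/-- Gluing: if all blocks are connected inside `S` and adjacent blocks are linked inside `S`,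
then `S` is connected. -/
lemma glue (H : Sub k l P S)
    (H1 : ∀ u ∈ S, ∀ c ∈ P, ∀ c' ∈ P, RTG S (emb k l u c) (emb k l u c'))
    (H2 : ∀ u ∈ S, ∀ v ∈ S, Adj u v → ∃ c ∈ P, ∃ c' ∈ P, RTG S (emb k l u c) (emb k l v c')) :
    Conn S := by
  have lift : ∀ u v, RTG S u v → u ∈ S → ∀ c ∈ P, ∀ c' ∈ P,
      RTG S (emb k l u c) (emb k l v c') := by
    intro u v huv hu
    induction huv with
    | refl => exact H1 u hu
    | tail hab hbc ih =>
      intro c hc c' hc'
      obtain ⟨d, hd, d', hd', hdd⟩ := H2 _ hbc.2.1 _ hbc.2.2 hbc.1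
      exact ((ih c hc d hd).trans hdd).trans (H1 _ hbc.2.2 _ hd' _ hc')
  have main : ∀ n, ∀ p ∈ S, p.1 + p.2 ≤ n → RTG S p (0, 0) := by
    intro n
    induction n with
    | zero =>
      intro p hp hn
      have : p = (0, 0) := by
        ext <;> simp <;> omega
      rw [this]
    | succ n ih =>
      intro p hp hn
      by_cases h0 : p = (0, 0)
      · rw [h0]
      have hmem := (H.mem p).1 hp
      have hk := H.hk
      have hl := H.hl
      have h1 : p.1 / k ≤ p.1 := Nat.div_le_self _ _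
      have h2 : p.2 / l ≤ p.2 := Nat.div_le_self _ _
      have h3 : 0 < p.1 → p.1 / k < p.1 := fun h => Nat.div_lt_self h (by omega)
      have h4 : 0 < p.2 → p.2 / l < p.2 := fun h => Nat.div_lt_self h (by omega)
      have h5 : 0 < p.1 ∨ 0 < p.2 := by
        by_contra hcon
        push Not at hcon
        apply h0
        ext <;> simp <;> omega
      have hr := ih _ hmem.1 (by
        show p.1 / k + p.2 / l ≤ n
        rcases h5 with h | h
        · have := h3 h; omega
        · have := h4 h; omega)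
      have := lift _ _ hr hmem.1 _ hmem.2 _ H.zeroP
      rw [emb_zero] at this
      have he : emb k l (p.1 / k, p.2 / l) (p.1 % k, p.2 % l) = p := by
        ext
        · simp only [emb]; rw [Nat.mul_comm]; exact Nat.div_add_mod _ _
        · simp only [emb]; rw [Nat.mul_comm]; exact Nat.div_add_mod _ _
      rwa [he] at this
  intro p hp q hq
  exact (main _ p hp le_rfl).trans (rtg_symm (main _ q hq le_rfl))

lemma col_only (H : Sub k l P S) (h : ∀ p ∈ P, p.2 = 0) : ∀ p ∈ S, p.2 = 0 := by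
  have : ∀ n, ∀ p ∈ S, p.2 ≤ n → p.2 = 0 := by
    intro n
    induction n with
    | zero => intro p _ h; omega
    | succ n ih =>
      intro p hp hn
      have hmem := (H.mem p).1 hp
      by_contra hne
      have h1 : p.2 / l < p.2 := Nat.div_lt_self (by omega) H.hl
      have h2 : p.2 / l = 0 := ih _ hmem.1 (by show p.2 / l ≤ n; omega)
      have h3 : p.2 % l = 0 := h _ hmem.2
      have := Nat.div_add_mod p.2 l
      rw [h2, h3] at this
      omega
  intro p hp
  exact this _ p hp le_rfl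

lemma row_only (H : Sub k l P S) (h : ∀ p ∈ P, p.1 = 0) : ∀ p ∈ S, p.1 = 0 := by
  have : ∀ n, ∀ p ∈ S, p.1 ≤ n → p.1 = 0 := by
    intro n
    induction n with
    | zero => intro p _ h; omega
    | succ n ih =>
      intro p hp hn
      have hmem := (H.mem p).1 hp
      by_contra hne
      have h1 : p.1 / k < p.1 := Nat.div_lt_self (by omega) H.hk
      have h2 : p.1 / k = 0 := ih _ hmem.1 (by show p.1 / k ≤ n; omega)
      have h3 : p.1 % k = 0 := h _ hmem.2
      have := Nat.div_add_mod p.1 k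
      rw [h2, h3] at this
      omega
  intro p hp
  exact this _ p hp le_rfl

/-- horizontally adjacent blocks are in contact -/
lemma contactH (H : Sub k l P S) {i : ℕ} (h1 : (i, 0) ∈ P) (h2 : (i, l - 1) ∈ P)
    {u v : ℕ × ℕ} (hu : u ∈ S) (hv : v ∈ S) (e1 : u.1 = v.1) (e2 : u.2 + 1 = v.2) :
    RTG S (emb k l u (i, l - 1)) (emb k l v (i, 0)) := by
  refine Relation.ReflTransGen.single ⟨?_, emb_mem H hu h2, emb_mem H hv h1⟩
  left
  have hl := H.hl
  simp only [emb]
  refine ⟨by rw [e1], Or.inl ?_⟩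
  rw [← e2, Nat.add_mul]
  omega

lemma contactV (H : Sub k l P S) {j : ℕ} (h1 : (0, j) ∈ P) (h2 : (k - 1, j) ∈ P)
    {u v : ℕ × ℕ} (hu : u ∈ S) (hv : v ∈ S) (e1 : u.2 = v.2) (e2 : u.1 + 1 = v.1) :
    RTG S (emb k l u (k - 1, j)) (emb k l v (0, j)) := by
  refine Relation.ReflTransGen.single ⟨?_, emb_mem H hu h2, emb_mem H hv h1⟩
  right
  have hk := H.hk
  simp only [emb]
  refine ⟨by rw [e1], Or.inl ?_⟩
  rw [← e2, Nat.add_mul]
  omega

/-- Horizontal condition on sets. -/
def HorS (l : ℕ) (P : Set (ℕ × ℕ)) : Prop :=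
  (∃ i, (i, 0) ∈ P ∧ (i, l - 1) ∈ P) ∨ ∀ p ∈ P, p.2 = 0

/-- Vertical condition on sets. -/
def VerS (k : ℕ) (P : Set (ℕ × ℕ)) : Prop :=
  (∃ j, (0, j) ∈ P ∧ (k - 1, j) ∈ P) ∨ ∀ p ∈ P, p.1 = 0

lemma linkH (H : Sub k l P S) (hor : HorS l P) {u v : ℕ × ℕ} (hu : u ∈ S) (hv : v ∈ S)
    (e1 : u.1 = v.1) (e2 : u.2 + 1 = v.2) :
    ∃ c ∈ P, ∃ c' ∈ P, RTG S (emb k l u c) (emb k l v c') := by
  rcases hor with ⟨i, h1, h2⟩ | h
  · exact ⟨_, h2, _, h1, contactH H h1 h2 hu hv e1 e2⟩
  · have := col_only H h v hv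
    omega

lemma linkV (H : Sub k l P S) (ver : VerS k P) {u v : ℕ × ℕ} (hu : u ∈ S) (hv : v ∈ S)
    (e1 : u.2 = v.2) (e2 : u.1 + 1 = v.1) :
    ∃ c ∈ P, ∃ c' ∈ P, RTG S (emb k l u c) (emb k l v c') := by
  rcases ver with ⟨i, h1, h2⟩ | h
  · exact ⟨_, h2, _, h1, contactV H h1 h2 hu hv e1 e2⟩
  · have := row_only H h v hv
    omega

lemma link (H : Sub k l P S) (hor : HorS l P) (ver : VerS k P) :
    ∀ u ∈ S, ∀ v ∈ S, Adj u v → ∃ c ∈ P, ∃ c' ∈ P, RTG S (emb k l u c) (emb k l v c') := by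
  intro u hu v hv hadj
  rcases hadj with ⟨e1, e2 | e2⟩ | ⟨e1, e2 | e2⟩
  · exact linkH H hor hu hv e1 e2
  · obtain ⟨c, hc, c', hc', h⟩ := linkH H hor hv hu e1.symm e2
    exact ⟨c', hc', c, hc, rtg_symm h⟩
  · exact linkV H ver hu hv e1 e2
  · obtain ⟨c, hc, c', hc', h⟩ := linkV H ver hv hu e1.symm e2
    exact ⟨c', hc', c, hc, rtg_symm h⟩

/-- Sufficiency for a connected block. -/
lemma conn_of (H : Sub k l P S) (hP : Conn P) (hor : HorS l P) (ver : VerS k P) : Conn S :=
  glue H (fun _ hu c hc c' hc' => block_path H hu (hP c hc c' hc')) (link H hor ver)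

lemma succ_div_ne {l n : ℕ} (hl : 2 ≤ l) (h : (n + 1) / l ≠ n / l) :
    (n + 1) % l = 0 ∧ n % l = l - 1 := by
  have hd : l ∣ n + 1 := by
    by_contra hnd
    apply h
    rw [Nat.succ_div, if_neg hnd]
    omega
  refine ⟨Nat.mod_eq_zero_of_dvd hd, ?_⟩
  obtain ⟨c, hc⟩ := hd
  obtain ⟨d, rfl⟩ : ∃ d, c = d + 1 := ⟨c - 1, by
    rcases c with _ | c
    · simp at hc
    · omega⟩
  have : n = l * d + (l - 1) := by
    rw [Nat.mul_add] at hc
    omega
  rw [this, Nat.mul_add_mod]
  exact Nat.mod_eq_of_lt (by omega)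

/-- Necessity of the horizontal condition. -/
lemma hor_of_conn (H : Sub k l P S) (hS : Conn S) : HorS l P := by
  by_contra hcon
  have hno : ¬ ∃ i, (i, 0) ∈ P ∧ (i, l - 1) ∈ P := fun h => hcon (Or.inl h)
  apply hcon
  right
  have step : ∀ p q, p ∈ S → q ∈ S → p.1 = q.1 → p.2 + 1 = q.2 → p.2 / l = q.2 / l := by
    intro p q hp hq e1 e2
    by_contra hne
    have := succ_div_ne H.hl (n := p.2) (by rw [e2]; exact fun h => hne h.symm)
    apply hno
    refine ⟨p.1 % k, ?_, ?_⟩
    · have h2 := ((H.mem q).1 hq).2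
      rw [← e1, ← e2, this.1] at h2
      exact h2
    · have h2 := ((H.mem p).1 hp).2
      rw [this.2] at h2
      exact h2
  have all : ∀ p, RTG S (0, 0) p → p.2 / l = 0 := by
    intro p hp
    induction hp with
    | refl => simp
    | tail hab hbc ih =>
      rename_i b c
      obtain ⟨hadj, hb, hc⟩ := hbc
      rcases hadj with ⟨e1, e2 | e2⟩ | ⟨e1, e2⟩
      · rw [← step b c hb hc e1 e2]; exact ih
      · rw [step c b hc hb e1.symm e2]; exact ih
      · rw [← e1]; exact ih
  intro c hc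
  have h1 : emb k l c (0, 0) ∈ S := emb_mem H (P_sub_S H hc) H.zeroP
  have h2 := all _ (hS _ H.zeroS _ h1)
  have hl := H.hl
  simp only [emb] at h2
  rw [(divmod (by omega : 0 < l)).1] at h2
  exact h2

lemma ver_of_conn (H : Sub k l P S) (hS : Conn S) : VerS k P := by
  by_contra hcon
  have hno : ¬ ∃ i, (0, i) ∈ P ∧ (k - 1, i) ∈ P := fun h => hcon (Or.inl h)
  apply hcon
  right
  have step : ∀ p q, p ∈ S → q ∈ S → p.2 = q.2 → p.1 + 1 = q.1 → p.1 / k = q.1 / k := by
    intro p q hp hq e1 e2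
    by_contra hne
    have := succ_div_ne H.hk (n := p.1) (by rw [e2]; exact fun h => hne h.symm)
    apply hno
    refine ⟨p.2 % l, ?_, ?_⟩
    · have h2 := ((H.mem q).1 hq).2
      rw [← e1, ← e2, this.1] at h2
      exact h2
    · have h2 := ((H.mem p).1 hp).2
      rw [this.2] at h2
      exact h2
  have all : ∀ p, RTG S (0, 0) p → p.1 / k = 0 := by
    intro p hp
    induction hp with
    | refl => simp
    | tail hab hbc ih =>
      rename_i b c
      obtain ⟨hadj, hb, hc⟩ := hbc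
      rcases hadj with ⟨e1, e2⟩ | ⟨e1, e2 | e2⟩
      · rw [← e1]; exact ih
      · rw [← step b c hb hc e1 e2]; exact ih
      · rw [step c b hc hb e1.symm e2]; exact ih
  intro c hc
  have h1 : emb k l c (0, 0) ∈ S := emb_mem H (P_sub_S H hc) H.zeroP
  have h2 := all _ (hS _ H.zeroS _ h1)
  have hk := H.hk
  simp only [emb] at h2
  rw [(divmod (by omega : 0 < k)).1] at h2
  exact h2

/-- A component `C` of the block which avoids the first row and the first column cannot be
isolated from the right and from below. -/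
lemma isolated (H : Sub k l P S) (hS : Conn S) {w c0 : ℕ × ℕ} (hw : w ∈ S) (hc0 : c0 ∈ P)
    (hn0 : ¬ RTG P c0 (0, 0))
    (hrow : ∀ c, RTG P c0 c → 0 < c.1) (hcol : ∀ c, RTG P c0 c → 0 < c.2)
    (hR : ∀ c, RTG P c0 c → c.2 + 1 < l ∨ (w.1, w.2 + 1) ∉ S)
    (hD : ∀ c, RTG P c0 c → c.1 + 1 < k ∨ (w.1 + 1, w.2) ∉ S) : False := by
  have hlt : ∀ c, RTG P c0 c → c ∈ P := by
    intro c hc
    rcases hc.cases_tail with h | ⟨b, _, hb⟩
    · rw [h]; exact hc0
    · exact hb.2.2
  have key : ∀ q, RTG S (emb k l w c0) q → ∃ c, RTG P c0 c ∧ q = emb k l w c := by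
    intro q hq
    induction hq with
    | refl => exact ⟨c0, Relation.ReflTransGen.refl, rfl⟩
    | tail hab hbc ih =>
      rename_i b q
      obtain ⟨c, hc, rfl⟩ := ih
      have hcP := hlt c hc
      obtain ⟨hck, hcl⟩ := H.lt c hcP
      obtain ⟨hadj, hb, hq⟩ := hbc
      have fin : ∀ d : ℕ × ℕ, d.1 < k → d.2 < l → Adj c d → q = emb k l w d →
          ∃ c, RTG P c0 c ∧ q = emb k l w c := by
        intro d hd1 hd2 had hqd
        refine ⟨d, hc.tail ⟨had, hcP, ?_⟩, hqd⟩
        rw [hqd] at hq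
        exact ((mem_emb H hd1 hd2).1 hq).2
      simp only [emb] at hadj
      rcases hadj with ⟨e1, e2 | e2⟩ | ⟨e1, e2 | e2⟩
      · -- right
        simp only at e1 e2
        by_cases hc2 : c.2 + 1 < l
        · refine fin (c.1, c.2 + 1) hck hc2 (Or.inl ⟨rfl, Or.inl rfl⟩) ?_
          ext
          · exact e1.symm
          · simp only [emb]; omega
        · exfalso
          rcases hR c hc with h | h
          · exact hc2 h
          · apply h
            have hm := ((H.mem q).1 hq).1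
            have q1 : q.1 / k = w.1 := by rw [← e1]; exact (divmod hck).1
            have q2 : q.2 / l = w.2 + 1 := by
              have : q.2 = (w.2 + 1) * l + 0 := by
                rw [Nat.add_mul]; omega
              rw [this]
              exact (divmod (by omega)).1
            rw [q1, q2] at hm
            exact hm
      · -- left
        simp only at e1 e2
        have := hcol c hc
        refine fin (c.1, c.2 - 1) hck (by show c.2 - 1 < l; omega)
          (Or.inl ⟨rfl, Or.inr (by show c.2 - 1 + 1 = c.2; omega)⟩) ?_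
        ext
        · exact e1.symm
        · simp only [emb]; omega
      · -- down
        simp only at e1 e2
        by_cases hc2 : c.1 + 1 < k
        · refine fin (c.1 + 1, c.2) hc2 hcl (Or.inr ⟨rfl, Or.inl rfl⟩) ?_
          ext
          · simp only [emb]; omega
          · exact e1.symm
        · exfalso
          rcases hD c hc with h | h
          · exact hc2 h
          · apply h
            have hm := ((H.mem q).1 hq).1
            have q1 : q.2 / l = w.2 := by rw [← e1]; exact (divmod hcl).1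
            have q2 : q.1 / k = w.1 + 1 := by
              have : q.1 = (w.1 + 1) * k + 0 := by
                rw [Nat.add_mul]; omega
              rw [this]
              exact (divmod (by omega)).1
            rw [q1, q2] at hm
            exact hm
      · -- up
        simp only at e1 e2
        have := hrow c hc
        refine fin (c.1 - 1, c.2) (by show c.1 - 1 < k; omega) hcl
          (Or.inr ⟨rfl, Or.inr (by show c.1 - 1 + 1 = c.1; omega)⟩) ?_
        ext
        · simp only [emb]; omega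
        · exact e1.symm
  obtain ⟨c, hc, he⟩ := key _ (hS _ (emb_mem H hw hc0) _ (emb_mem H hw H.zeroP))
  apply hn0
  have : c = (0, 0) := by
    simp only [emb, Prod.mk.injEq] at he
    ext
    · simp; omega
    · simp; omega
  rwa [this] at hc

/-- If the block contains its first row and its first column, then connectivity of `S` forces
connectivity of the block. -/
lemma conn_block (H : Sub k l P S) (hS : Conn S) (hrow : ∀ j < l, (0, j) ∈ P)
    (hcol : ∀ i < k, (i, 0) ∈ P) : Conn P := by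
  have hk := H.hk
  have hl := H.hl
  suffices hz : ∀ c ∈ P, RTG P c (0, 0) by
    intro p hp q hq
    exact (hz p hp).trans (rtg_symm (hz q hq))
  intro c0 hc0
  by_contra hn0
  have hlt : ∀ c, RTG P c0 c → c ∈ P := by
    intro c hc
    rcases hc.cases_tail with h | ⟨b, _, hb⟩
    · rw [h]; exact hc0
    · exact hb.2.2
  have rowc : ∀ j < l, RTG P (0, 0) (0, j) := fun j hj =>
    row_path 0 j (fun j' hj' => hrow j' (by omega))
  have colc : ∀ i < k, RTG P (0, 0) (i, 0) := fun i hi =>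
    col_path 0 i (fun i' hi' => hcol i' (by omega))
  have h1 : ∀ c, RTG P c0 c → 0 < c.1 := by
    intro c hc
    by_contra h
    have h0 : c.1 = 0 := by omega
    have hcl := (H.lt c (hlt c hc)).2
    have := rowc c.2 hcl
    apply hn0
    refine hc.trans (rtg_symm ?_)
    have he : c = (0, c.2) := by ext <;> simp [h0]
    rw [he]
    exact this
  have h2 : ∀ c, RTG P c0 c → 0 < c.2 := by
    intro c hc
    by_contra h
    have h0 : c.2 = 0 := by omega
    have hck := (H.lt c (hlt c hc)).1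
    have := colc c.1 hck
    apply hn0
    refine hc.trans (rtg_symm ?_)
    have he : c = (c.1, 0) := by ext <;> simp [h0]
    rw [he]
    exact this
  by_cases hr : ∀ i < k, (i, l - 1) ∈ P
  · by_cases hb : ∀ j < l, (k - 1, j) ∈ P
    · -- the whole boundary belongs to the block
      refine isolated H hS (w := (0, 0)) H.zeroS hc0 hn0 h1 h2 ?_ ?_
      · intro c hc
        left
        by_contra hcon
        have hcP := H.lt c (hlt c hc)
        have he : c = (c.1, l - 1) := by
          ext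
          · rfl
          · show c.2 = l - 1; omega
        apply hn0
        refine hc.trans (rtg_symm ?_)
        rw [he]
        exact (rowc (l - 1) (by omega)).trans
          (col_path (l - 1) c.1 (fun i hi => hr i (by omega)))
      · intro c hc
        left
        by_contra hcon
        have hcP := H.lt c (hlt c hc)
        have he : c = (k - 1, c.2) := by
          ext
          · show c.1 = k - 1; omega
          · rfl
        apply hn0
        refine hc.trans (rtg_symm ?_)
        rw [he]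
        exact (colc (k - 1) (by omega)).trans
          (row_path (k - 1) c.2 (fun i hi => hb i (by omega)))
    · push Not at hb
      obtain ⟨j0, hj0, hj0'⟩ := hb
      obtain ⟨j, hj, hj1, hj2⟩ := ivt (fun j => (k - 1, j) ∈ P) j0 (hcol _ (by omega)) hj0'
      obtain ⟨i, hi, hi1, hi2⟩ := ivt (fun i => (i, j + 1) ∈ P) (k - 1) (hrow _ (by omega)) hj2
      have hw1 : ((i, j + 1) : ℕ × ℕ) ∈ S := P_sub_S H hi1
      have hw1' : ((i + 1, j + 1) : ℕ × ℕ) ∉ S := by
        rw [mem_small H (by show i + 1 < k; omega) (by show j + 1 < l; omega)]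
        exact hi2
      have hwS : emb k l (i, j + 1) (k - 1, j) ∈ S := emb_mem H hw1 hj1
      refine isolated H hS hwS hc0 hn0 h1 h2 ?_ ?_
      · intro c hc
        right
        intro hmem
        have he : (((emb k l (i, j + 1) (k - 1, j)).1,
            (emb k l (i, j + 1) (k - 1, j)).2 + 1) : ℕ × ℕ) =
            emb k l (i, j + 1) (k - 1, j + 1) := by
          simp only [emb]
          ext
          · rfl
          · show (j + 1) * l + j + 1 = (j + 1) * l + (j + 1); omega
        rw [he] at hmem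
        exact hj2 ((mem_emb H (by show k - 1 < k; omega)
          (by show j + 1 < l; omega)).1 hmem).2
      · intro c hc
        right
        intro hmem
        have he : (((emb k l (i, j + 1) (k - 1, j)).1 + 1,
            (emb k l (i, j + 1) (k - 1, j)).2) : ℕ × ℕ) =
            emb k l (i + 1, j + 1) (0, j) := by
          simp only [emb]
          ext
          · show i * k + (k - 1) + 1 = (i + 1) * k + 0
            rw [Nat.add_mul]; omega
          · rfl
        rw [he] at hmem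
        exact hw1' ((mem_emb H (by show 0 < k; omega)
          (by show j < l; omega)).1 hmem).1
  · push Not at hr
    obtain ⟨i0, hi0, hi0'⟩ := hr
    obtain ⟨i, hi, hi1, hi2⟩ := ivt (fun i => (i, l - 1) ∈ P) i0 (hrow _ (by omega)) hi0'
    obtain ⟨j, hj, hj1, hj2⟩ := ivt (fun j => (i + 1, j) ∈ P) (l - 1) (hcol _ (by omega)) hi2
    have hw1 : ((i + 1, j) : ℕ × ℕ) ∈ S := P_sub_S H hj1
    have hw1' : ((i + 1, j + 1) : ℕ × ℕ) ∉ S := by
      rw [mem_small H (by show i + 1 < k; omega) (by show j + 1 < l; omega)]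
      exact hj2
    have hwS : emb k l (i + 1, j) (i, l - 1) ∈ S := emb_mem H hw1 hi1
    refine isolated H hS hwS hc0 hn0 h1 h2 ?_ ?_
    · intro c hc
      right
      intro hmem
      have he : (((emb k l (i + 1, j) (i, l - 1)).1,
          (emb k l (i + 1, j) (i, l - 1)).2 + 1) : ℕ × ℕ) =
          emb k l (i + 1, j + 1) (i, 0) := by
        simp only [emb]
        ext
        · rfl
        · show j * l + (l - 1) + 1 = (j + 1) * l + 0
          rw [Nat.add_mul]; omega
      rw [he] at hmem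
      exact hw1' ((mem_emb H (by show i < k; omega)
        (by show 0 < l; omega)).1 hmem).1
    · intro c hc
      right
      intro hmem
      have he : (((emb k l (i + 1, j) (i, l - 1)).1 + 1,
          (emb k l (i + 1, j) (i, l - 1)).2) : ℕ × ℕ) =
          emb k l (i + 1, j) (i + 1, l - 1) := by
        simp only [emb]
        ext
        · show (i + 1) * k + i + 1 = (i + 1) * k + (i + 1); omega
        · rfl
      rw [he] at hmem
      exact hi2 ((mem_emb H (by show i + 1 < k; omega)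
        (by show l - 1 < l; omega)).1 hmem).2

end

/-- The fixed point gives a self-similar set of cells. -/
lemma sub_of (k l : ℕ) (h : Bool → Arr) (A : Arr) (hk : 2 ≤ k) (hl : 2 ≤ l)
    (h0 : ∀ i < k, ∀ j < l, h false i j = false) (h1 : h true 0 0 = true)
    (hA : IsFixedPoint k l h true A) : Sub k l (onesIn k l (h true)) (ones A) where
  hk := hk
  hl := hl
  lt := fun p hp => ⟨hp.1, hp.2.1⟩
  zeroP := ⟨by show 0 < k; omega, by show 0 < l; omega, h1⟩
  zeroS := by
    show A 0 0 = true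
    rw [hA 0 0 0 (by simp) (by simp)]
    rfl
  mem := by
    intro p
    have e : A p.1 p.2 = h (A (p.1 / k) (p.2 / l)) (p.1 % k) (p.2 % l) := by
      have a1 : p.1 < k ^ (p.1 + p.2 + 1) :=
        lt_of_lt_of_le (Nat.lt_pow_self (by omega)) (Nat.pow_le_pow_right (by omega) (by omega))
      have a2 : p.2 < l ^ (p.1 + p.2 + 1) :=
        lt_of_lt_of_le (Nat.lt_pow_self (by omega)) (Nat.pow_le_pow_right (by omega) (by omega))
      rw [hA (p.1 + p.2 + 1) _ _ a1 a2]
      have b1 : p.1 / k < k ^ (p.1 + p.2) := by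
        apply Nat.div_lt_of_lt_mul
        rw [pow_succ, Nat.mul_comm] at a1
        exact a1
      have b2 : p.2 / l < l ^ (p.1 + p.2) := by
        apply Nat.div_lt_of_lt_mul
        rw [pow_succ, Nat.mul_comm] at a2
        exact a2
      rw [hA (p.1 + p.2) _ _ b1 b2]
      rfl
    have m1 : p.1 % k < k := Nat.mod_lt _ (by omega)
    have m2 : p.2 % l < l := Nat.mod_lt _ (by omega)
    show A p.1 p.2 = true ↔ A (p.1 / k) (p.2 / l) = true ∧
      (p.1 % k < k ∧ p.2 % l < l ∧ h true (p.1 % k) (p.2 % l) = true)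
    rw [e]
    cases hh : A (p.1 / k) (p.2 / l) with
    | false => simp [h0 _ m1 _ m2]
    | true => simp [m1, m2]


/-- the translate of a path in the chain of blocks -/
lemma rep_path {n k l : ℕ} {P : Arr} {S : Set (ℕ × ℕ)} (H : Sub k l (onesIn k l P) S)
    {v : ℕ × ℕ} (hv : ∀ t < n, (v.1, v.2 + t) ∈ S) {x y : ℕ × ℕ}
    (h : RTG (onesIn k (n * l) (rep l P)) x y) :
    RTG S (emb k l v x) (emb k l v y) := by
  have hl := H.hl
  have hm : ∀ x ∈ onesIn k (n * l) (rep l P), emb k l v x ∈ S := by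
    intro x hx
    obtain ⟨h1, h2, h3⟩ := hx
    have h4 : x.2 % l < l := Nat.mod_lt _ (by omega)
    have h5 : x.2 / l < n := Nat.div_lt_of_lt_mul (by rw [Nat.mul_comm]; exact h2)
    have he : emb k l v x = emb k l (v.1, v.2 + x.2 / l) (x.1, x.2 % l) := by
      simp only [emb]
      ext
      · rfl
      · show v.2 * l + x.2 = (v.2 + x.2 / l) * l + x.2 % l
        rw [Nat.add_mul]
        have := Nat.div_add_mod x.2 l
        rw [Nat.mul_comm] at this
        omega
    rw [he]
    exact (mem_emb H (c := (x.1, x.2 % l)) h1 h4).2 ⟨hv _ h5, h1, h4, h3⟩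
  induction h with
  | refl => exact Relation.ReflTransGen.refl
  | tail hab hbc ih =>
    obtain ⟨h1, h2, h3⟩ := hbc
    refine ih.tail ⟨?_, hm _ h2, hm _ h3⟩
    unfold Adj at *
    simp only [emb]
    omega

lemma horS_iff {k l : ℕ} (P : Arr) (hl : 2 ≤ l) : HorOK k l P ↔ HorS l (onesIn k l P) := by
  constructor
  · rintro (⟨i, h1, h2, h3⟩ | h)
    · exact Or.inl ⟨i, ⟨h1, by show 0 < l; omega, h2⟩, ⟨h1, by show l - 1 < l; omega, h3⟩⟩
    · exact Or.inr fun p hp => h _ hp.1 _ hp.2.1 hp.2.2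
  · rintro (⟨i, h1, h2⟩ | h)
    · exact Or.inl ⟨i, h1.1, h1.2.2, h2.2.2⟩
    · exact Or.inr fun i hi j hj hij => h (i, j) ⟨hi, hj, hij⟩

lemma verS_iff {k l : ℕ} (P : Arr) (hk : 2 ≤ k) : VerOK k l P ↔ VerS k (onesIn k l P) := by
  constructor
  · rintro (⟨i, h1, h2, h3⟩ | h)
    · exact Or.inl ⟨i, ⟨by show 0 < k; omega, h1, h2⟩, ⟨by show k - 1 < k; omega, h1, h3⟩⟩
    · exact Or.inr fun p hp => h _ hp.1 _ hp.2.1 hp.2.2
  · rintro (⟨i, h1, h2⟩ | h)
    · exact Or.inl ⟨i, h1.2.1, h1.2.2, h2.2.2⟩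
    · exact Or.inr fun i hi j hj hij => h (i, j) ⟨hi, hj, hij⟩

/-- Sufficiency for possibly disconnected blocks. -/
lemma conn_of_chain {n k l : ℕ} {P : Arr} {S : Set (ℕ × ℕ)} (H : Sub k l (onesIn k l P) S)
    (hrun : RunOK n k l P) (hD : Conn (onesIn k (n * l) (rep l P)))
    (hor : HorOK k l P) (ver : VerOK k l P) : Conn S := by
  have hl := H.hl
  have hk := H.hk
  refine glue H ?_ (link H ((horS_iff P hl).1 hor) ((verS_iff P hk).1 ver))
  intro u hu c hc c' hc'
  have hm := (H.mem u).1 hu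
  have hcu := hm.2
  have hu1 : u.1 / k * k + u.1 % k = u.1 := by rw [Nat.mul_comm]; exact Nat.div_add_mod _ _
  have hu2 : u.2 / l * l + u.2 % l = u.2 := by rw [Nat.mul_comm]; exact Nat.div_add_mod _ _
  have m1 : u.1 % k < k := Nat.mod_lt _ (by omega)
  have m2 : u.2 % l < l := Nat.mod_lt _ (by omega)
  obtain ⟨j0, h1, h2, h3, h4⟩ := hrun _ m1 _ m2 hcu.2.2
  -- the shift
  obtain ⟨s, hs⟩ : ∃ s, u.2 % l = j0 + s := ⟨u.2 % l - j0, by omega⟩
  have hsn : s < n := by omega
  have inD : ∀ d ∈ onesIn k l P, (d.1, d.2 + s * l) ∈ onesIn k (n * l) (rep l P) := by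
    intro d hd
    refine ⟨hd.1, ?_, ?_⟩
    · show d.2 + s * l < n * l
      have h5 : (s + 1) * l ≤ n * l := Nat.mul_le_mul_right _ hsn
      rw [Nat.add_mul] at h5
      have := hd.2.1
      omega
    · simp only [rep]
      rw [Nat.add_mul_mod_self_right, Nat.mod_eq_of_lt hd.2.1]
      exact hd.2.2
  have hv : ∀ t < n, (((u.1, u.2 / l * l + j0) : ℕ × ℕ).1,
      ((u.1, u.2 / l * l + j0) : ℕ × ℕ).2 + t) ∈ S := by
    intro t ht
    have h5 : ((u.1 % k, j0 + t) : ℕ × ℕ) ∈ onesIn k l P :=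
      ⟨m1, by show j0 + t < l; omega, h4 t ht⟩
    have := emb_mem H hm.1 h5
    simp only [emb] at this
    rw [hu1, ← Nat.add_assoc] at this
    exact this
  have := rep_path H hv (hD _ (inD c hc) _ (inD c' hc'))
  have e : ∀ d : ℕ × ℕ, emb k l (u.1, u.2 / l * l + j0) (d.1, d.2 + s * l) = emb k l u d := by
    intro d
    have e1 : u.2 = u.2 / l * l + j0 + s := by omega
    have e2 : u.2 * l = (u.2 / l * l + j0) * l + s * l := by
      rw [← Nat.add_mul, ← e1]
    simp only [emb]
    ext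
    · rfl
    · show (u.2 / l * l + j0) * l + (d.2 + s * l) = u.2 * l + d.2
      rw [e2]; omega
  rw [e c, e c'] at this
  exact this

section
variable {k l : ℕ} {P S : Set (ℕ × ℕ)}

/-- A component of the block none of whose contacts is available at the block `w`. -/
lemma isolated2 (H : Sub k l P S) (hS : Conn S) {w c0 c1 : ℕ × ℕ} (hw : w ∈ S) (hc0 : c0 ∈ P)
    (hc1 : c1 ∈ P) (hn : ¬ RTG P c0 c1)
    (hR : (w.1, w.2 + 1) ∉ S ∨ ∀ c, RTG P c0 c → c.2 + 1 = l → (c.1, 0) ∉ P)
    (hD : (w.1 + 1, w.2) ∉ S ∨ ∀ c, RTG P c0 c → c.1 + 1 = k → (0, c.2) ∉ P)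
    (hL : w.2 = 0 ∨ (w.1, w.2 - 1) ∉ S ∨ ∀ c, RTG P c0 c → c.2 = 0 → (c.1, l - 1) ∉ P)
    (hU : w.1 = 0 ∨ (w.1 - 1, w.2) ∉ S ∨ ∀ c, RTG P c0 c → c.1 = 0 → (k - 1, c.2) ∉ P) :
    False := by
  have hk := H.hk
  have hl := H.hl
  have hlt : ∀ c, RTG P c0 c → c ∈ P := by
    intro c hc
    rcases hc.cases_tail with h | ⟨b, _, hb⟩
    · rw [h]; exact hc0
    · exact hb.2.2
  have key : ∀ q, RTG S (emb k l w c0) q → ∃ c, RTG P c0 c ∧ q = emb k l w c := by
    intro q hq
    induction hq with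
    | refl => exact ⟨c0, Relation.ReflTransGen.refl, rfl⟩
    | tail hab hbc ih =>
      rename_i b q
      obtain ⟨c, hc, rfl⟩ := ih
      have hcP := hlt c hc
      obtain ⟨hck, hcl⟩ := H.lt c hcP
      obtain ⟨hadj, hb, hq⟩ := hbc
      have fin : ∀ d : ℕ × ℕ, d.1 < k → d.2 < l → Adj c d → q = emb k l w d →
          ∃ c, RTG P c0 c ∧ q = emb k l w c := by
        intro d hd1 hd2 had hqd
        refine ⟨d, hc.tail ⟨had, hcP, ?_⟩, hqd⟩
        rw [hqd] at hq
        exact ((mem_emb H hd1 hd2).1 hq).2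
      simp only [emb] at hadj
      rcases hadj with ⟨e1, e2 | e2⟩ | ⟨e1, e2 | e2⟩
      · -- right
        simp only at e1 e2
        by_cases hc2 : c.2 + 1 < l
        · refine fin (c.1, c.2 + 1) hck hc2 (Or.inl ⟨rfl, Or.inl rfl⟩) ?_
          ext
          · exact e1.symm
          · simp only [emb]; omega
        · exfalso
          have he : q = emb k l (w.1, w.2 + 1) (c.1, 0) := by
            ext
            · exact e1.symm
            · show q.2 = (w.2 + 1) * l + 0
              rw [Nat.add_mul]; omega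
          rw [he] at hq
          have hm := (mem_emb H (c := (c.1, 0)) hck (by show 0 < l; omega)).1 hq
          rcases hR with h | h
          · exact h hm.1
          · exact h c hc (by omega) hm.2
      · -- left
        simp only at e1 e2
        by_cases hc2 : 0 < c.2
        · refine fin (c.1, c.2 - 1) hck (by show c.2 - 1 < l; omega)
            (Or.inl ⟨rfl, Or.inr (by show c.2 - 1 + 1 = c.2; omega)⟩) ?_
          ext
          · exact e1.symm
          · simp only [emb]; omega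
        · exfalso
          rcases hL with h | h
          · rw [h] at e2
            omega
          · have hw2 : w.2 ≠ 0 := by
              intro h0
              rw [h0] at e2
              omega
            obtain ⟨n, hn'⟩ : ∃ n, w.2 = n + 1 := ⟨w.2 - 1, by omega⟩
            have he : q = emb k l (w.1, w.2 - 1) (c.1, l - 1) := by
              ext
              · exact e1.symm
              · show q.2 = (w.2 - 1) * l + (l - 1)
                rw [hn'] at e2 ⊢
                rw [Nat.add_mul] at e2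
                rw [Nat.add_sub_cancel]
                omega
            rw [he] at hq
            have hm := (mem_emb H (c := (c.1, l - 1)) hck (by show l - 1 < l; omega)).1 hq
            rcases h with h | h
            · exact h hm.1
            · exact h c hc (by omega) hm.2
      · -- down
        simp only at e1 e2
        by_cases hc2 : c.1 + 1 < k
        · refine fin (c.1 + 1, c.2) hc2 hcl (Or.inr ⟨rfl, Or.inl rfl⟩) ?_
          ext
          · simp only [emb]; omega
          · exact e1.symm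
        · exfalso
          have he : q = emb k l (w.1 + 1, w.2) (0, c.2) := by
            ext
            · show q.1 = (w.1 + 1) * k + 0
              rw [Nat.add_mul]; omega
            · exact e1.symm
          rw [he] at hq
          have hm := (mem_emb H (c := (0, c.2)) (by show 0 < k; omega) hcl).1 hq
          rcases hD with h | h
          · exact h hm.1
          · exact h c hc (by omega) hm.2
      · -- up
        simp only at e1 e2
        by_cases hc2 : 0 < c.1
        · refine fin (c.1 - 1, c.2) (by show c.1 - 1 < k; omega) hcl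
            (Or.inr ⟨rfl, Or.inr (by show c.1 - 1 + 1 = c.1; omega)⟩) ?_
          ext
          · simp only [emb]; omega
          · exact e1.symm
        · exfalso
          rcases hU with h | h
          · rw [h] at e2
            omega
          · have hw2 : w.1 ≠ 0 := by
              intro h0
              rw [h0] at e2
              omega
            obtain ⟨n, hn'⟩ : ∃ n, w.1 = n + 1 := ⟨w.1 - 1, by omega⟩
            have he : q = emb k l (w.1 - 1, w.2) (k - 1, c.2) := by
              ext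
              · show q.1 = (w.1 - 1) * k + (k - 1)
                rw [hn'] at e2 ⊢
                rw [Nat.add_mul] at e2
                rw [Nat.add_sub_cancel]
                omega
              · exact e1.symm
            rw [he] at hq
            have hm := (mem_emb H (c := (k - 1, c.2)) (by show k - 1 < k; omega) hcl).1 hq
            rcases h with h | h
            · exact h hm.1
            · exact h c hc (by omega) hm.2
  obtain ⟨c, hc, he⟩ := key _ (hS _ (emb_mem H hw hc0) _ (emb_mem H hw hc1))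
  apply hn
  have : c = c1 := by
    simp only [emb, Prod.mk.injEq] at he
    ext
    · omega
    · omega
  rwa [this] at hc

/-- If every cell of `S` has its right neighbour in `S`, the block is a union of full rows. -/
lemma full_rows (H : Sub k l P S) (h : ∀ w ∈ S, (w.1, w.2 + 1) ∈ S) :
    ∀ c ∈ P, ∀ j < l, (c.1, j) ∈ P := by
  intro c hc j hj
  have h1 : ∀ n, (c.1, c.2 + n) ∈ S := by
    intro n
    induction n with
    | zero => exact P_sub_S H hc
    | succ n ih => exact h _ ih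
  have hcl := (H.lt c hc).2
  have h2 := h1 (l + j - c.2)
  have e : c.2 + (l + j - c.2) = 1 * l + j := by omega
  rw [e] at h2
  have h3 := ((H.mem _).1 h2).2
  have h4 : (1 * l + j) % l = j := (divmod hj).2
  have h5 : c.1 % k = c.1 := Nat.mod_eq_of_lt (H.lt c hc).1
  simp only at h3
  rwa [h4, h5] at h3

/-- If every cell of `S` has its lower neighbour in `S`, the block is a union of full
columns. -/
lemma full_cols (H : Sub k l P S) (h : ∀ w ∈ S, (w.1 + 1, w.2) ∈ S) :
    ∀ c ∈ P, ∀ i < k, (i, c.2) ∈ P := by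
  intro c hc i hi
  have h1 : ∀ n, (c.1 + n, c.2) ∈ S := by
    intro n
    induction n with
    | zero => exact P_sub_S H hc
    | succ n ih => exact h _ ih
  have hck := (H.lt c hc).1
  have h2 := h1 (k + i - c.1)
  have e : c.1 + (k + i - c.1) = 1 * k + i := by omega
  rw [e] at h2
  have h3 := ((H.mem _).1 h2).2
  have h4 : (1 * k + i) % k = i := (divmod hi).2
  have h5 : c.2 % l = c.2 := Nat.mod_eq_of_lt (H.lt c hc).2
  simp only at h3
  rwa [h4, h5] at h3

/-- Some `1` of the block has no right and no lower neighbour in the block. -/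
lemma corner_cell (H : Sub k l P S) :
    ∃ c ∈ P, (c.1, c.2 + 1) ∉ P ∧ (c.1 + 1, c.2) ∉ P := by
  by_contra hcon
  push Not at hcon
  have : ∀ n, ∃ c ∈ P, n ≤ c.1 + c.2 := by
    intro n
    induction n with
    | zero => exact ⟨_, H.zeroP, by simp⟩
    | succ n ih =>
      obtain ⟨c, hc, hn⟩ := ih
      by_cases h : (c.1, c.2 + 1) ∈ P
      · exact ⟨_, h, by show n + 1 ≤ c.1 + (c.2 + 1); omega⟩
      · exact ⟨_, hcon c hc h, by show n + 1 ≤ c.1 + 1 + c.2; omega⟩
  obtain ⟨c, hc, hn⟩ := this (k + l)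
  have := H.lt c hc
  omega

/-- No cell of `S` is free on the right and below: the last column and row are full. -/
lemma no_RD (H : Sub k l P S) {wR wD : ℕ × ℕ} (hwR : wR ∈ S) (hwR' : (wR.1, wR.2 + 1) ∉ S)
    (hwD : wD ∈ S) (hwD' : (wD.1 + 1, wD.2) ∉ S)
    (hE : ∀ w ∈ S, (w.1, w.2 + 1) ∈ S ∨ (w.1 + 1, w.2) ∈ S) :
    (∀ i < k, (i, l - 1) ∈ P) ∧ (∀ j < l, (k - 1, j) ∈ P) := by
  have hk := H.hk
  have hl := H.hl
  -- last column
  have r1 : ∀ i, i + 1 < k → (i, l - 1) ∈ P → (i + 1, l - 1) ∈ P := by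
    intro i hi h
    have hw := emb_mem H hwR h
    rcases hE _ hw with h1 | h1
    · exfalso
      have he : (((emb k l wR (i, l - 1)).1, (emb k l wR (i, l - 1)).2 + 1) : ℕ × ℕ) =
          emb k l (wR.1, wR.2 + 1) (i, 0) := by
        simp only [emb]
        ext
        · rfl
        · show wR.2 * l + (l - 1) + 1 = (wR.2 + 1) * l + 0
          rw [Nat.add_mul]; omega
      rw [he] at h1
      exact hwR' ((mem_emb H (by show i < k; omega) (by show 0 < l; omega)).1 h1).1
    · have he : (((emb k l wR (i, l - 1)).1 + 1, (emb k l wR (i, l - 1)).2) : ℕ × ℕ) =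
          emb k l wR (i + 1, l - 1) := by
        simp only [emb]
        ext
        · show wR.1 * k + i + 1 = wR.1 * k + (i + 1); omega
        · rfl
      rw [he] at h1
      exact ((mem_emb H (by show i + 1 < k; omega) (by show l - 1 < l; omega)).1 h1).2
  have r2 : (k - 1, l - 1) ∈ P → (0, l - 1) ∈ P := by
    intro h
    have hw := emb_mem H hwR h
    rcases hE _ hw with h1 | h1
    · exfalso
      have he : (((emb k l wR (k - 1, l - 1)).1, (emb k l wR (k - 1, l - 1)).2 + 1) : ℕ × ℕ) =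
          emb k l (wR.1, wR.2 + 1) (k - 1, 0) := by
        simp only [emb]
        ext
        · rfl
        · show wR.2 * l + (l - 1) + 1 = (wR.2 + 1) * l + 0
          rw [Nat.add_mul]; omega
      rw [he] at h1
      exact hwR' ((mem_emb H (by show k - 1 < k; omega) (by show 0 < l; omega)).1 h1).1
    · have he : (((emb k l wR (k - 1, l - 1)).1 + 1, (emb k l wR (k - 1, l - 1)).2) : ℕ × ℕ) =
          emb k l (wR.1 + 1, wR.2) (0, l - 1) := by
        simp only [emb]
        ext
        · show wR.1 * k + (k - 1) + 1 = (wR.1 + 1) * k + 0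
          rw [Nat.add_mul]; omega
        · rfl
      rw [he] at h1
      exact ((mem_emb H (by show 0 < k; omega) (by show l - 1 < l; omega)).1 h1).2
  -- last row
  have b1 : ∀ j, j + 1 < l → (k - 1, j) ∈ P → (k - 1, j + 1) ∈ P := by
    intro j hj h
    have hw := emb_mem H hwD h
    rcases hE _ hw with h1 | h1
    · have he : (((emb k l wD (k - 1, j)).1, (emb k l wD (k - 1, j)).2 + 1) : ℕ × ℕ) =
          emb k l wD (k - 1, j + 1) := by
        simp only [emb]
        ext
        · rfl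
        · show wD.2 * l + j + 1 = wD.2 * l + (j + 1); omega
      rw [he] at h1
      exact ((mem_emb H (by show k - 1 < k; omega) (by show j + 1 < l; omega)).1 h1).2
    · exfalso
      have he : (((emb k l wD (k - 1, j)).1 + 1, (emb k l wD (k - 1, j)).2) : ℕ × ℕ) =
          emb k l (wD.1 + 1, wD.2) (0, j) := by
        simp only [emb]
        ext
        · show wD.1 * k + (k - 1) + 1 = (wD.1 + 1) * k + 0
          rw [Nat.add_mul]; omega
        · rfl
      rw [he] at h1
      exact hwD' ((mem_emb H (by show 0 < k; omega) (by show j < l; omega)).1 h1).1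
  have b2 : (k - 1, l - 1) ∈ P → (k - 1, 0) ∈ P := by
    intro h
    have hw := emb_mem H hwD h
    rcases hE _ hw with h1 | h1
    · have he : (((emb k l wD (k - 1, l - 1)).1, (emb k l wD (k - 1, l - 1)).2 + 1) : ℕ × ℕ) =
          emb k l (wD.1, wD.2 + 1) (k - 1, 0) := by
        simp only [emb]
        ext
        · rfl
        · show wD.2 * l + (l - 1) + 1 = (wD.2 + 1) * l + 0
          rw [Nat.add_mul]; omega
      rw [he] at h1
      exact ((mem_emb H (by show k - 1 < k; omega) (by show 0 < l; omega)).1 h1).2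
    · exfalso
      have he : (((emb k l wD (k - 1, l - 1)).1 + 1, (emb k l wD (k - 1, l - 1)).2) : ℕ × ℕ) =
          emb k l (wD.1 + 1, wD.2) (0, l - 1) := by
        simp only [emb]
        ext
        · show wD.1 * k + (k - 1) + 1 = (wD.1 + 1) * k + 0
          rw [Nat.add_mul]; omega
        · rfl
      rw [he] at h1
      exact hwD' ((mem_emb H (by show 0 < k; omega) (by show l - 1 < l; omega)).1 h1).1
  have up : ∀ i, i < k → (i, l - 1) ∈ P → (k - 1, l - 1) ∈ P := by
    intro i hi h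
    have : ∀ n, i + n < k → (i + n, l - 1) ∈ P := by
      intro n
      induction n with
      | zero => intro _; exact h
      | succ n ih => intro hn; exact r1 _ (by omega) (ih (by omega))
    have := this (k - 1 - i) (by omega)
    rwa [show i + (k - 1 - i) = k - 1 by omega] at this
  have rt : ∀ j, j < l → (k - 1, j) ∈ P → (k - 1, l - 1) ∈ P := by
    intro j hj h
    have : ∀ n, j + n < l → (k - 1, j + n) ∈ P := by
      intro n
      induction n with
      | zero => intro _; exact h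
      | succ n ih => intro hn; exact b1 _ (by omega) (ih (by omega))
    have := this (l - 1 - j) (by omega)
    rwa [show j + (l - 1 - j) = l - 1 by omega] at this
  have hcorner : (k - 1, l - 1) ∈ P := by
    obtain ⟨c, hc, hc1, hc2⟩ := corner_cell H
    obtain ⟨hck, hcl⟩ := H.lt c hc
    rcases hE c (P_sub_S H hc) with h1 | h1
    · have : c.2 = l - 1 := by
        by_contra hne
        exact hc1 ((mem_small H (c := (c.1, c.2 + 1)) hck (by show c.2 + 1 < l; omega)).1 h1)
      apply up c.1 hck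
      rw [← this]
      exact hc
    · have : c.1 = k - 1 := by
        by_contra hne
        exact hc2 ((mem_small H (c := (c.1 + 1, c.2)) (by show c.1 + 1 < k; omega) hcl).1 h1)
      apply rt c.2 hcl
      rw [← this]
      exact hc
  constructor
  · intro i
    induction i with
    | zero => intro _; exact r2 hcorner
    | succ i ih => intro hi; exact r1 i hi (ih (by omega))
  · intro j
    induction j with
    | zero => intro _; exact b2 hcorner
    | succ j ih => intro hj; exact b1 j hj (ih (by omega))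

/-- No cell of `S` is free on the left and below: the first column and last row are full. -/
lemma no_LD (H : Sub k l P S) {wD : ℕ × ℕ}
    (hwD : wD ∈ S) (hwD' : (wD.1 + 1, wD.2) ∉ S)
    (hE : ∀ w ∈ S, (0 < w.2 ∧ (w.1, w.2 - 1) ∈ S) ∨ (w.1 + 1, w.2) ∈ S) :
    (k - 1, 0) ∈ P ∧ (∀ j < l, (k - 1, j) ∈ P) := by
  have hk := H.hk
  have hl := H.hl
  have c1 : ∀ i < k, (i, 0) ∈ P := by
    intro i
    induction i with
    | zero => intro _; exact H.zeroP
    | succ i ih =>
      intro hi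
      rcases hE _ (P_sub_S H (ih (by omega))) with h | h
      · exact absurd h.1 (by simp)
      · exact (mem_small H (c := (i + 1, 0)) hi (by show 0 < l; omega)).1 h
  have hk0 : (k - 1, 0) ∈ P := c1 _ (by omega)
  refine ⟨hk0, ?_⟩
  have noD : ∀ j, j < l → (((emb k l wD (k - 1, j)).1 + 1, (emb k l wD (k - 1, j)).2) : ℕ × ℕ)
      ∉ S := by
    intro j hj h1
    have he : (((emb k l wD (k - 1, j)).1 + 1, (emb k l wD (k - 1, j)).2) : ℕ × ℕ) =
        emb k l (wD.1 + 1, wD.2) (0, j) := by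
      simp only [emb]
      ext
      · show wD.1 * k + (k - 1) + 1 = (wD.1 + 1) * k + 0
        rw [Nat.add_mul]; omega
      · rfl
    rw [he] at h1
    exact hwD' ((mem_emb H (by show 0 < k; omega) hj).1 h1).1
  have b0 : (k - 1, l - 1) ∈ P := by
    rcases hE _ (emb_mem H hwD hk0) with ⟨h0, h1⟩ | h1
    · have hpos : 0 < wD.2 := by
        by_contra hcon
        have : wD.2 = 0 := by omega
        simp [emb, this] at h0
      obtain ⟨n, hn⟩ : ∃ n, wD.2 = n + 1 := ⟨wD.2 - 1, by omega⟩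
      have he : (((emb k l wD (k - 1, 0)).1, (emb k l wD (k - 1, 0)).2 - 1) : ℕ × ℕ) =
          emb k l (wD.1, wD.2 - 1) (k - 1, l - 1) := by
        simp only [emb]
        ext
        · rfl
        · show wD.2 * l + 0 - 1 = (wD.2 - 1) * l + (l - 1)
          rw [hn, Nat.add_sub_cancel, Nat.add_mul]; omega
      rw [he] at h1
      exact ((mem_emb H (by show k - 1 < k; omega) (by show l - 1 < l; omega)).1 h1).2
    · exact absurd h1 (noD 0 (by omega))
  have b1 : ∀ j, j + 1 < l → (k - 1, j + 1) ∈ P → (k - 1, j) ∈ P := by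
    intro j hj h
    rcases hE _ (emb_mem H hwD h) with ⟨h0, h1⟩ | h1
    · have he : (((emb k l wD (k - 1, j + 1)).1, (emb k l wD (k - 1, j + 1)).2 - 1) : ℕ × ℕ) =
          emb k l wD (k - 1, j) := by
        simp only [emb]
        ext
        · rfl
        · show wD.2 * l + (j + 1) - 1 = wD.2 * l + j
          omega
      rw [he] at h1
      exact ((mem_emb H (by show k - 1 < k; omega) (by show j < l; omega)).1 h1).2
    · exact absurd h1 (noD (j + 1) hj)
  intro j hj
  have : ∀ n, n < l → (k - 1, l - 1 - n) ∈ P := by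
    intro n
    induction n with
    | zero => intro _; exact b0
    | succ n ih =>
      intro hn
      apply b1 _ (by omega)
      rw [show l - 1 - (n + 1) + 1 = l - 1 - n by omega]
      exact ih (by omega)
  have := this (l - 1 - j) (by omega)
  rwa [show l - 1 - (l - 1 - j) = j by omega] at this

/-- transpose -/
def tr (S : Set (ℕ × ℕ)) : Set (ℕ × ℕ) := {p | (p.2, p.1) ∈ S}

lemma rtg_tr {p q : ℕ × ℕ} (h : RTG S p q) : RTG (tr S) (p.2, p.1) (q.2, q.1) := by
  induction h with
  | refl => exact Relation.ReflTransGen.refl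
  | tail hab hbc ih =>
    refine ih.tail ⟨?_, hbc.2.1, hbc.2.2⟩
    have := hbc.1
    unfold Adj at *
    simp only
    omega

lemma conn_tr (h : Conn S) : Conn (tr S) := fun _ hp _ hq => rtg_tr (h _ hp _ hq)

lemma sub_tr (H : Sub k l P S) : Sub l k (tr P) (tr S) where
  hk := H.hl
  hl := H.hk
  lt := fun p hp => ⟨(H.lt _ hp).2, (H.lt _ hp).1⟩
  zeroP := H.zeroP
  zeroS := H.zeroS
  mem := by
    intro p
    exact H.mem (p.2, p.1)

/-- the case `{L, D}` -/
lemma case_LD (H : Sub k l P S) (hS : Conn S) {c0 c1 : ℕ × ℕ} (hc0 : c0 ∈ P)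
    (hc1 : c1 ∈ P) (hn : ¬ RTG P c0 c1)
    (nR : ¬ ∃ i, RTG P c0 (i, l - 1) ∧ (i, 0) ∈ P)
    (nU : ¬ ∃ j, RTG P c0 (0, j) ∧ (k - 1, j) ∈ P) : False := by
  have hk := H.hk
  have hl := H.hl
  have hR : ∀ c, RTG P c0 c → c.2 + 1 = l → (c.1, 0) ∉ P := by
    intro c hc hcl hP
    apply nR
    refine ⟨c.1, ?_, hP⟩
    have : c = (c.1, l - 1) := by
      ext
      · rfl
      · show c.2 = l - 1; omega
    rwa [this] at hc
  have hU : ∀ c, RTG P c0 c → c.1 = 0 → (k - 1, c.2) ∉ P := by
    intro c hc hcl hP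
    apply nU
    refine ⟨c.2, ?_, hP⟩
    have : c = (0, c.2) := by
      ext
      · exact hcl
      · rfl
    rwa [this] at hc
  by_cases hE : ∃ w ∈ S, ¬ (0 < w.2 ∧ (w.1, w.2 - 1) ∈ S) ∧ (w.1 + 1, w.2) ∉ S
  · obtain ⟨w, hw, h1, h2⟩ := hE
    refine isolated2 H hS hw hc0 hc1 hn (Or.inr hR) (Or.inl h2) ?_ (Or.inr (Or.inr hU))
    by_cases h0 : w.2 = 0
    · exact Or.inl h0
    · exact Or.inr (Or.inl fun h => h1 ⟨by omega, h⟩)
  · push Not at hE
    have hE' : ∀ w ∈ S, (0 < w.2 ∧ (w.1, w.2 - 1) ∈ S) ∨ (w.1 + 1, w.2) ∈ S := by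
      intro w hw
      by_cases h : 0 < w.2 ∧ (w.1, w.2 - 1) ∈ S
      · exact Or.inl h
      · exact Or.inr (hE w hw (fun a b => h ⟨a, b⟩))
    by_cases hD : ∃ w ∈ S, (w.1 + 1, w.2) ∉ S
    · obtain ⟨wD, hwD, hwD'⟩ := hD
      obtain ⟨hk0, hrow⟩ := no_LD H hwD hwD' hE'
      refine isolated2 H hS (w := (0, 0)) H.zeroS hc0 hc1 hn (Or.inr hR) (Or.inr ?_)
        (Or.inl rfl) (Or.inl rfl)
      intro c hc hck
      exfalso
      apply nR
      refine ⟨k - 1, ?_, hk0⟩
      have he : c = (k - 1, c.2) := by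
        ext
        · show c.1 = k - 1; omega
        · rfl
      have hcl : c.2 < l := by
        rcases hc.cases_tail with h | ⟨b, _, hb⟩
        · rw [h]; exact (H.lt _ hc0).2
        · exact (H.lt _ hb.2.2).2
      rw [he] at hc
      exact (hc.trans (rtg_symm (row_path (k - 1) c.2 (fun j hj => hrow j (by omega))))).trans
        (row_path (k - 1) (l - 1) (fun j hj => hrow j (by omega)))
    · push Not at hD
      have hfull := full_cols H hD c0 hc0
      apply nU
      refine ⟨c0.2, ?_, hfull _ (by omega)⟩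
      have := col_path (S := P) c0.2 c0.1 (fun i hi => hfull i (by
        have := (H.lt _ hc0).1; omega))
      exact rtg_symm this

/-- the case `{R, D}` -/
lemma case_RD (H : Sub k l P S) (hS : Conn S) {c0 c1 : ℕ × ℕ} (hc0 : c0 ∈ P)
    (hc1 : c1 ∈ P) (hn : ¬ RTG P c0 c1)
    (nL : ¬ ∃ i, RTG P c0 (i, 0) ∧ (i, l - 1) ∈ P)
    (nU : ¬ ∃ j, RTG P c0 (0, j) ∧ (k - 1, j) ∈ P) : False := by
  have hk := H.hk
  have hl := H.hl
  have hlt : ∀ c, RTG P c0 c → c ∈ P := by
    intro c hc
    rcases hc.cases_tail with h | ⟨b, _, hb⟩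
    · rw [h]; exact hc0
    · exact hb.2.2
  have hL : ∀ c, RTG P c0 c → c.2 = 0 → (c.1, l - 1) ∉ P := by
    intro c hc hcl hP
    apply nL
    refine ⟨c.1, ?_, hP⟩
    have : c = (c.1, 0) := by
      ext
      · rfl
      · exact hcl
    rwa [this] at hc
  have hU : ∀ c, RTG P c0 c → c.1 = 0 → (k - 1, c.2) ∉ P := by
    intro c hc hcl hP
    apply nU
    refine ⟨c.2, ?_, hP⟩
    have : c = (0, c.2) := by
      ext
      · exact hcl
      · rfl
    rwa [this] at hc
  by_cases hE : ∃ w ∈ S, (w.1, w.2 + 1) ∉ S ∧ (w.1 + 1, w.2) ∉ S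
  · obtain ⟨w, hw, h1, h2⟩ := hE
    exact isolated2 H hS hw hc0 hc1 hn (Or.inl h1) (Or.inl h2) (Or.inr (Or.inr hL))
      (Or.inr (Or.inr hU))
  · push Not at hE
    have hE' : ∀ w ∈ S, (w.1, w.2 + 1) ∈ S ∨ (w.1 + 1, w.2) ∈ S := by
      intro w hw
      by_cases h : (w.1, w.2 + 1) ∈ S
      · exact Or.inl h
      · exact Or.inr (hE w hw h)
    by_cases hD : ∃ w ∈ S, (w.1 + 1, w.2) ∉ S
    · by_cases hR : ∃ w ∈ S, (w.1, w.2 + 1) ∉ S
      · obtain ⟨wD, hwD, hwD'⟩ := hD
        obtain ⟨wR, hwR, hwR'⟩ := hR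
        obtain ⟨hcol, hrow⟩ := no_RD H hwR hwR' hwD hwD' hE'
        have bot : ∀ j < l, RTG P c0 (k - 1, j) → False := by
          intro j hj hc
          apply nL
          exact ⟨k - 1, hc.trans (rtg_symm (row_path (k - 1) j
            (fun j' hj' => hrow j' (by omega)))), hrow _ (by omega)⟩
        refine isolated2 H hS (w := (0, 0)) H.zeroS hc0 hc1 hn (Or.inr ?_) (Or.inr ?_)
          (Or.inl rfl) (Or.inl rfl)
        · intro c hc hcl
          exfalso
          have he : c = (c.1, l - 1) := by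
            ext
            · rfl
            · show c.2 = l - 1; omega
          have hck := (H.lt _ (hlt c hc)).1
          rw [he] at hc
          apply bot (l - 1) (by omega)
          exact (hc.trans (rtg_symm (col_path (l - 1) c.1
            (fun i hi => hcol i (by omega))))).trans
            (col_path (l - 1) (k - 1) (fun i hi => hcol i (by omega)))
        · intro c hc hck
          exfalso
          have he : c = (k - 1, c.2) := by
            ext
            · show c.1 = k - 1; omega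
            · rfl
          have hcl := (H.lt _ (hlt c hc)).2
          rw [he] at hc
          exact bot c.2 hcl hc
      · push Not at hR
        have hfull := full_rows H hR c0 hc0
        apply nL
        refine ⟨c0.1, ?_, hfull _ (by omega)⟩
        have := row_path (S := P) c0.1 c0.2 (fun i hi => hfull i (by
          have := (H.lt _ hc0).2; omega))
        exact rtg_symm this
    · push Not at hD
      have hfull := full_cols H hD c0 hc0
      apply nU
      refine ⟨c0.2, ?_, hfull _ (by omega)⟩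
      have := col_path (S := P) c0.2 c0.1 (fun i hi => hfull i (by
        have := (H.lt _ hc0).1; omega))
      exact rtg_symm this

/-- the case `{L, U}` -/
lemma case_LU (H : Sub k l P S) (hS : Conn S) {c0 c1 : ℕ × ℕ} (hc0 : c0 ∈ P)
    (hc1 : c1 ∈ P) (hn : ¬ RTG P c0 c1)
    (nR : ¬ ∃ i, RTG P c0 (i, l - 1) ∧ (i, 0) ∈ P)
    (nD : ¬ ∃ j, RTG P c0 (k - 1, j) ∧ (0, j) ∈ P) : False := by
  have hk := H.hk
  have hl := H.hl
  refine isolated2 H hS (w := (0, 0)) H.zeroS hc0 hc1 hn (Or.inr ?_) (Or.inr ?_)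
    (Or.inl rfl) (Or.inl rfl)
  · intro c hc hcl hP
    apply nR
    refine ⟨c.1, ?_, hP⟩
    have : c = (c.1, l - 1) := by
      ext
      · rfl
      · show c.2 = l - 1; omega
    rwa [this] at hc
  · intro c hc hck hP
    apply nD
    refine ⟨c.2, ?_, hP⟩
    have : c = (k - 1, c.2) := by
      ext
      · show c.1 = k - 1; omega
      · rfl
    rwa [this] at hc

/-- **Crossing components.** -/
lemma crossing (H : Sub k l P S) (hS : Conn S) (hP : ¬ Conn P) : ∀ c0 ∈ P, Crossing k l P c0 := by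
  intro c0 hc0
  obtain ⟨c1, hc1, hn⟩ : ∃ c1 ∈ P, ¬ RTG P c0 c1 := by
    by_contra hcon
    push Not at hcon
    exact hP fun p hp q hq => (rtg_symm (hcon p hp)).trans (hcon q hq)
  by_contra hcon
  unfold Crossing at hcon
  rw [not_or, not_and_or, not_and_or] at hcon
  obtain ⟨nL | nR, nU | nD⟩ := hcon
  · exact case_RD H hS hc0 hc1 hn nL nU
  · -- `{R, U}`: transpose of `{L, D}`
    refine case_LD (sub_tr H) (conn_tr hS) (c0 := (c0.2, c0.1)) (c1 := (c1.2, c1.1)) hc0 hc1
      (fun h => hn (rtg_tr h)) ?_ ?_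
    · rintro ⟨i, h1, h2⟩
      exact nD ⟨i, rtg_tr h1, h2⟩
    · rintro ⟨i, h1, h2⟩
      exact nL ⟨i, rtg_tr h1, h2⟩
  · exact case_LD H hS hc0 hc1 hn nR nU
  · exact case_LU H hS hc0 hc1 hn nR nD

end

/-- The fixed point exists. -/
lemma exists_fixed (k l : ℕ) (h : Bool → Arr) (a : Bool) (hk : 2 ≤ k) (hl : 2 ≤ l)
    (ha : h a 0 0 = a) : ∃ A, IsFixedPoint k l h a A := by
  have hs : ∀ r i j, i < k ^ r → j < l ^ r → power k l h a (r + 1) i j = power k l h a r i j := by
    intro r
    induction r with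
    | zero =>
      intro i j hi hj
      have hi' : i = 0 := by simpa using hi
      have hj' : j = 0 := by simpa using hj
      subst hi' hj'
      simp [power, ha]
    | succ r ih =>
      intro i j hi hj
      show h (power k l h a (r + 1) (i / k) (j / l)) (i % k) (j % l) =
        h (power k l h a r (i / k) (j / l)) (i % k) (j % l)
      rw [ih]
      · apply Nat.div_lt_of_lt_mul
        rw [pow_succ, Nat.mul_comm] at hi
        exact hi
      · apply Nat.div_lt_of_lt_mul
        rw [pow_succ, Nat.mul_comm] at hj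
        exact hj
  have hs2 : ∀ d r i j, i < k ^ r → j < l ^ r →
      power k l h a (r + d) i j = power k l h a r i j := by
    intro d
    induction d with
    | zero => intro r i j _ _; rfl
    | succ d ih =>
      intro r i j hi hj
      have hi' : i < k ^ (r + d) := lt_of_lt_of_le hi (Nat.pow_le_pow_right (by omega) (by omega))
      have hj' : j < l ^ (r + d) := lt_of_lt_of_le hj (Nat.pow_le_pow_right (by omega) (by omega))
      rw [← Nat.add_assoc, hs _ _ _ hi' hj', ih r i j hi hj]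
  refine ⟨fun i j => power k l h a (i + j) i j, ?_⟩
  intro r i j hi hj
  have hi' : i < k ^ (i + j) :=
    lt_of_lt_of_le (Nat.lt_pow_self (by omega)) (Nat.pow_le_pow_right (by omega) (by omega))
  have hj' : j < l ^ (i + j) :=
    lt_of_lt_of_le (Nat.lt_pow_self (by omega)) (Nat.pow_le_pow_right (by omega) (by omega))
  show power k l h a (i + j) i j = power k l h a r i j
  rw [← hs2 r (i + j) i j hi' hj', Nat.add_comm (i + j) r, hs2 (i + j) r i j hi hj]


instance (p q : ℕ × ℕ) : Decidable (Adj p q) := by unfold Adj; infer_instance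

/-- next cell on the way to the corner in two copies of the example block -/
def nxt (p : ℕ × ℕ) : ℕ × ℕ :=
  if p.1 = 0 then (0, p.2 - 1)
  else if p.1 = 1 then (0, p.2)
  else if p.1 = 2 then
    (if p.2 ≤ 1 then (3, p.2) else if p.2 = 5 ∨ p.2 = 6 then (2, p.2 - 1) else (1, p.2))
  else if p.1 = 3 then (if p.2 ≤ 1 then (4, p.2) else (2, p.2))
  else (if p.2 ≤ 4 then (4, p.2 + 1) else if p.2 ≤ 6 then (3, p.2) else (4, p.2 - 1))

lemma ex_step : ∀ i < 5, ∀ j < 10, rep 5 exBlock i j = true →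
    ((i, j) = nxt (i, j) ∨ Adj (i, j) (nxt (i, j))) ∧ (nxt (i, j)).1 < 5 ∧
      (nxt (i, j)).2 < 10 ∧ rep 5 exBlock (nxt (i, j)).1 (nxt (i, j)).2 = true := by
  decide +kernel

lemma ex_reach : ∀ i < 5, ∀ j < 10, rep 5 exBlock i j = true →
    (nxt^[30]) (i, j) = (0, 0) := by
  decide +kernel

lemma ex_rep : Conn (onesIn 5 (2 * 5) (rep 5 exBlock)) := by
  have one : ∀ p ∈ onesIn 5 (2 * 5) (rep 5 exBlock),
      RTG (onesIn 5 (2 * 5) (rep 5 exBlock)) p (nxt p) ∧
        nxt p ∈ onesIn 5 (2 * 5) (rep 5 exBlock) := by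
    intro p hp
    obtain ⟨h1, h2, h3, h4⟩ := ex_step p.1 hp.1 p.2 hp.2.1 hp.2.2
    have hm : nxt p ∈ onesIn 5 (2 * 5) (rep 5 exBlock) := ⟨h2, h3, h4⟩
    refine ⟨?_, hm⟩
    rcases h1 with h1 | h1
    · have h1' : p = nxt p := h1
      rw [← h1']
    · exact Relation.ReflTransGen.single ⟨h1, hp, hm⟩
  have many : ∀ n, ∀ p ∈ onesIn 5 (2 * 5) (rep 5 exBlock),
      RTG (onesIn 5 (2 * 5) (rep 5 exBlock)) p ((nxt^[n]) p) := by
    intro n
    induction n with
    | zero => intro p _; exact Relation.ReflTransGen.refl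
    | succ n ih =>
      intro p hp
      rw [Function.iterate_succ_apply]
      exact (one p hp).1.trans (ih _ (one p hp).2)
  have z : ∀ p ∈ onesIn 5 (2 * 5) (rep 5 exBlock),
      RTG (onesIn 5 (2 * 5) (rep 5 exBlock)) p (0, 0) := by
    intro p hp
    have := many 30 p hp
    rwa [ex_reach p.1 hp.1 p.2 hp.2.1 hp.2.2] at this
  intro p hp q hq
  exact (z p hp).trans (rtg_symm (z q hq))

/-- start of a run of length two -/
def exStart (i j : ℕ) : ℕ := if (i = 2 ∨ i = 3) ∧ j ≤ 1 then 0 else min j 3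

lemma ex_run : ∀ i < 5, ∀ j < 5, exBlock i j = true →
    (exStart i j ≤ j ∧ j < exStart i j + 2 ∧ exStart i j + 2 ≤ 5 ∧
      ∀ t < 2, exBlock i (exStart i j + t) = true) := by
  decide +kernel

/-- which of the two components a cell of the example block lies in -/
def lower (p : ℕ × ℕ) : Bool := decide (p.1 = 4) || (decide (2 ≤ p.1) && decide (p.2 ≤ 1))

lemma ex_inv' : ∀ x y : Fin 5 × Fin 5, ¬ (exBlock x.1 x.2 = true ∧ exBlock y.1 y.2 = true ∧
    Adj (x.1, x.2) (y.1, y.2) ∧ lower (x.1, x.2) ≠ lower (y.1, y.2)) := by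
  decide +kernel

lemma ex_inv : ∀ i < 5, ∀ j < 5, ∀ i' < 5, ∀ j' < 5, exBlock i j = true →
    exBlock i' j' = true → Adj (i, j) (i', j') → lower (i, j) = lower (i', j') := by
  intro i hi j hj i' hi' j' hj' h1 h2 h3
  by_contra h4
  exact ex_inv' (⟨i, hi⟩, ⟨j, hj⟩) (⟨i', hi'⟩, ⟨j', hj'⟩) ⟨h1, h2, h3, h4⟩

lemma ex_not : ¬ Conn (onesIn 5 5 exBlock) := by
  intro hc
  have h1 : RTG (onesIn 5 5 exBlock) (0, 0) (4, 0) :=
    hc _ ⟨by decide, by decide, by decide⟩ _ ⟨by decide, by decide, by decide⟩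
  have inv : ∀ q, RTG (onesIn 5 5 exBlock) (0, 0) q → lower q = lower (0, 0) := by
    intro q hq
    induction hq with
    | refl => rfl
    | tail hab hbc ih =>
      rename_i b c
      obtain ⟨h1, h2, h3⟩ := hbc
      rw [← ih]
      exact (ex_inv b.1 h2.1 b.2 h2.2.1 c.1 h3.1 c.2 h3.2.1 h2.2.2 h3.2.2 h1).symm
  have := inv _ h1
  revert this
  decide


section General

variable {k l : ℕ} {h : Bool → Arr}

lemma box_split {K a b : ℕ} (hb : b < K) : (a * K + b) / K = a ∧ (a * K + b) % K = b :=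
  divmod hb

lemma pw_split (hk : 2 ≤ k) (hl : 2 ≤ l) : ∀ r x i j, i < k ^ (r + 1) → j < l ^ (r + 1) →
    power k l h x (r + 1) i j =
      power k l h (h x (i / k ^ r) (j / l ^ r)) r (i % k ^ r) (j % l ^ r) := by
  intro r
  induction r with
  | zero =>
    intro x i j hi hj
    simp only [zero_add, pow_one] at hi hj
    simp only [power, pow_zero, Nat.div_one]
    rw [Nat.mod_eq_of_lt hi, Nat.mod_eq_of_lt hj]
  | succ r ih =>
    intro x i j hi hj
    have hi' : i / k < k ^ (r + 1) := by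
      apply Nat.div_lt_of_lt_mul
      rw [pow_succ, Nat.mul_comm] at hi
      exact hi
    have hj' : j / l < l ^ (r + 1) := by
      apply Nat.div_lt_of_lt_mul
      rw [pow_succ, Nat.mul_comm] at hj
      exact hj
    have e1 : power k l h x (r + 1 + 1) i j =
        h (power k l h x (r + 1) (i / k) (j / l)) (i % k) (j % l) := rfl
    rw [e1, ih x _ _ hi' hj']
    show _ = h (power k l h (h x (i / k ^ (r + 1)) (j / l ^ (r + 1))) r
      (i % k ^ (r + 1) / k) (j % l ^ (r + 1) / l)) (i % k ^ (r + 1) % k) (j % l ^ (r + 1) % l)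
    have a1 : i / k / k ^ r = i / k ^ (r + 1) := by
      rw [Nat.div_div_eq_div_mul, pow_succ']
    have a2 : j / l / l ^ r = j / l ^ (r + 1) := by
      rw [Nat.div_div_eq_div_mul, pow_succ']
    have a3 : i % k ^ (r + 1) / k = i / k % k ^ r := by
      rw [pow_succ', Nat.mod_mul_right_div_self]
    have a4 : j % l ^ (r + 1) / l = j / l % l ^ r := by
      rw [pow_succ', Nat.mod_mul_right_div_self]
    have a5 : i % k ^ (r + 1) % k = i % k :=
      Nat.mod_mod_of_dvd _ (Dvd.intro_left (k ^ r) (by rw [pow_succ]))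
    have a6 : j % l ^ (r + 1) % l = j % l :=
      Nat.mod_mod_of_dvd _ (Dvd.intro_left (l ^ r) (by rw [pow_succ]))
    rw [a1, a2, a3, a4, a5, a6]

/-- The cells of the `k^r × l^r` array `h^r(x)` that hold `1`. -/
def powerOnes (k l : ℕ) (h : Bool → Arr) (r : ℕ) (x : Bool) : Set (ℕ × ℕ) :=
  onesIn (k ^ r) (l ^ r) (power k l h x r)

def Hc (k l : ℕ) (h : Bool → Arr) (r : ℕ) (x y : Bool) : Prop :=
  ∃ t, (t, l ^ r - 1) ∈ powerOnes k l h r x ∧ (t, 0) ∈ powerOnes k l h r y

def Vc (k l : ℕ) (h : Bool → Arr) (r : ℕ) (x y : Bool) : Prop :=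
  ∃ t, (k ^ r - 1, t) ∈ powerOnes k l h r x ∧ (0, t) ∈ powerOnes k l h r y

def Nc (k l : ℕ) (h : Bool → Arr) (r : ℕ) (x : Bool) : Prop := ∃ d, d ∈ powerOnes k l h r x

/-- abstract data: horizontal contacts, vertical contacts, nonemptiness -/
abbrev Data := (Bool → Bool → Prop) × (Bool → Bool → Prop) × (Bool → Prop)

def dat (k l : ℕ) (h : Bool → Arr) (r : ℕ) : Data := (Hc k l h r, Vc k l h r, Nc k l h r)

/-- one step in the contact graph of the cells of `h(x)` -/
def GStep (k l : ℕ) (h : Bool → Arr) (D : Data) (x : Bool) (c c' : ℕ × ℕ) : Prop :=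
  (c.1 < k ∧ c.2 < l ∧ c'.1 < k ∧ c'.2 < l) ∧
  ((c.1 = c'.1 ∧ c.2 + 1 = c'.2 ∧ D.1 (h x c.1 c.2) (h x c'.1 c'.2)) ∨
   (c.1 = c'.1 ∧ c'.2 + 1 = c.2 ∧ D.1 (h x c'.1 c'.2) (h x c.1 c.2)) ∨
   (c.2 = c'.2 ∧ c.1 + 1 = c'.1 ∧ D.2.1 (h x c.1 c.2) (h x c'.1 c'.2)) ∨
   (c.2 = c'.2 ∧ c'.1 + 1 = c.1 ∧ D.2.1 (h x c'.1 c'.2) (h x c.1 c.2)))

def GConn (k l : ℕ) (h : Bool → Arr) (D : Data) (x : Bool) : Prop :=
  ∀ c c' : ℕ × ℕ, c.1 < k → c.2 < l → c'.1 < k → c'.2 < l →
    D.2.2 (h x c.1 c.2) → D.2.2 (h x c'.1 c'.2) →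
    Relation.ReflTransGen (GStep k l h D x) c c'

lemma mem_O_succ (hk : 2 ≤ k) (hl : 2 ≤ l) {r : ℕ} {x : Bool} {c d : ℕ × ℕ}
    (hd1 : d.1 < k ^ r) (hd2 : d.2 < l ^ r) :
    emb (k ^ r) (l ^ r) c d ∈ powerOnes k l h (r + 1) x ↔
      c.1 < k ∧ c.2 < l ∧ d ∈ powerOnes k l h r (h x c.1 c.2) := by
  have e1 : c.1 * k ^ r + d.1 < k ^ (r + 1) ↔ c.1 < k := by
    rw [pow_succ']
    constructor
    · intro hh
      by_contra hcon
      have : k * k ^ r ≤ c.1 * k ^ r := Nat.mul_le_mul_right _ (by omega)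
      omega
    · intro hh
      have : (c.1 + 1) * k ^ r ≤ k * k ^ r := Nat.mul_le_mul_right _ hh
      rw [Nat.add_mul] at this
      omega
  have e2 : c.2 * l ^ r + d.2 < l ^ (r + 1) ↔ c.2 < l := by
    rw [pow_succ']
    constructor
    · intro hh
      by_contra hcon
      have : l * l ^ r ≤ c.2 * l ^ r := Nat.mul_le_mul_right _ (by omega)
      omega
    · intro hh
      have : (c.2 + 1) * l ^ r ≤ l * l ^ r := Nat.mul_le_mul_right _ hh
      rw [Nat.add_mul] at this
      omega
  constructor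
  · rintro ⟨h1, h2, h3⟩
    have h1' : c.1 * k ^ r + d.1 < k ^ (r + 1) := h1
    have h2' : c.2 * l ^ r + d.2 < l ^ (r + 1) := h2
    refine ⟨e1.1 h1', e2.1 h2', hd1, hd2, ?_⟩
    have := pw_split (h := h) hk hl r x _ _ h1' h2'
    simp only [emb] at h3
    rw [this, (divmod hd1).1, (divmod hd1).2, (divmod hd2).1, (divmod hd2).2] at h3
    exact h3
  · rintro ⟨h1, h2, h3⟩
    have h1' := e1.2 h1
    have h2' := e2.2 h2
    refine ⟨h1', h2', ?_⟩
    have := pw_split (h := h) hk hl r x _ _ h1' h2'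
    simp only [emb]
    rw [this, (divmod hd1).1, (divmod hd1).2, (divmod hd2).1, (divmod hd2).2]
    exact h3.2.2

/-- every cell of `h^{r+1}(x)` is of the form `emb c d` -/
lemma exists_emb (hk : 2 ≤ k) (hl : 2 ≤ l) {r : ℕ} {x : Bool} {p : ℕ × ℕ}
    (hp : p ∈ powerOnes k l h (r + 1) x) : (p.1 / k ^ r < k ∧ p.2 / l ^ r < l ∧
      (p.1 % k ^ r, p.2 % l ^ r) ∈ powerOnes k l h r (h x (p.1 / k ^ r) (p.2 / l ^ r))) ∧
      emb (k ^ r) (l ^ r) (p.1 / k ^ r, p.2 / l ^ r) (p.1 % k ^ r, p.2 % l ^ r) = p := by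
  have K0 : 0 < k ^ r := pow_pos (by omega) _
  have L0 : 0 < l ^ r := pow_pos (by omega) _
  have he : emb (k ^ r) (l ^ r) (p.1 / k ^ r, p.2 / l ^ r) (p.1 % k ^ r, p.2 % l ^ r) = p := by
    ext
    · simp only [emb]; rw [Nat.mul_comm]; exact Nat.div_add_mod _ _
    · simp only [emb]; rw [Nat.mul_comm]; exact Nat.div_add_mod _ _
  refine ⟨?_, he⟩
  have := (mem_O_succ (h := h) hk hl (x := x) (c := (p.1 / k ^ r, p.2 / l ^ r))
    (d := (p.1 % k ^ r, p.2 % l ^ r)) (Nat.mod_lt _ K0) (Nat.mod_lt _ L0)).1 (by rw [he]; exact hp)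
  exact this

lemma succ_div_cases {L n : ℕ} (hL : 0 < L) :
    (n + 1) / L = n / L ∨ ((n + 1) / L = n / L + 1 ∧ (n + 1) % L = 0 ∧ n % L = L - 1) := by
  by_cases hd : L ∣ n + 1
  · right
    refine ⟨by rw [Nat.succ_div, if_pos hd], Nat.mod_eq_zero_of_dvd hd, ?_⟩
    obtain ⟨c, hc⟩ := hd
    obtain ⟨d, rfl⟩ : ∃ d, c = d + 1 := ⟨c - 1, by
      rcases c with _ | c
      · simp at hc
      · omega⟩
    have : n = L * d + (L - 1) := by
      rw [Nat.mul_add] at hc
      omega
    rw [this, Nat.mul_add_mod]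
    exact Nat.mod_eq_of_lt (by omega)
  · left
    rw [Nat.succ_div, if_neg hd]
    omega

lemma gconn_of_conn (hk : 2 ≤ k) (hl : 2 ≤ l) {r : ℕ} {x : Bool}
    (hC : Conn (powerOnes k l h (r + 1) x)) : GConn k l h (dat k l h r) x := by
  have K0 : 0 < k ^ r := pow_pos (by omega) _
  have L0 : 0 < l ^ r := pow_pos (by omega) _
  have step : ∀ p q, Step (powerOnes k l h (r + 1) x) p q →
      Relation.ReflTransGen (GStep k l h (dat k l h r) x)
        (p.1 / k ^ r, p.2 / l ^ r) (q.1 / k ^ r, q.2 / l ^ r) := by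
    rintro p q ⟨hadj, hp, hq⟩
    obtain ⟨⟨hp1, hp2, hp3⟩, _⟩ := exists_emb hk hl hp
    obtain ⟨⟨hq1, hq2, hq3⟩, _⟩ := exists_emb hk hl hq
    rcases hadj with ⟨e1, e2 | e2⟩ | ⟨e1, e2 | e2⟩
    · rcases succ_div_cases (n := p.2) L0 with h1 | ⟨h1, h2, h3⟩
      · rw [e1, ← e2, h1]
      · refine Relation.ReflTransGen.single ⟨⟨hp1, hp2, hq1, hq2⟩, Or.inl ⟨?_, ?_, ?_⟩⟩
        · simp only [e1]
        · simp only [← e2, h1]
        · refine ⟨p.1 % k ^ r, ?_, ?_⟩
          · rw [h3] at hp3; exact hp3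
          · rw [← e1, ← e2, h2] at hq3
            simp only [← e1, ← e2]
            exact hq3
    · rcases succ_div_cases (n := q.2) L0 with h1 | ⟨h1, h2, h3⟩
      · rw [e1, ← e2, h1]
      · refine Relation.ReflTransGen.single ⟨⟨hp1, hp2, hq1, hq2⟩, Or.inr (Or.inl ⟨?_, ?_, ?_⟩)⟩
        · simp only [e1]
        · simp only [← e2, h1]
        · refine ⟨q.1 % k ^ r, ?_, ?_⟩
          · rw [h3] at hq3; exact hq3
          · rw [e1, ← e2, h2] at hp3
            simp only [e1, ← e2]
            exact hp3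
    · rcases succ_div_cases (n := p.1) K0 with h1 | ⟨h1, h2, h3⟩
      · rw [e1, ← e2, h1]
      · refine Relation.ReflTransGen.single ⟨⟨hp1, hp2, hq1, hq2⟩,
          Or.inr (Or.inr (Or.inl ⟨?_, ?_, ?_⟩))⟩
        · simp only [e1]
        · simp only [← e2, h1]
        · refine ⟨p.2 % l ^ r, ?_, ?_⟩
          · rw [h3] at hp3; exact hp3
          · rw [← e1, ← e2, h2] at hq3
            simp only [← e1, ← e2]
            exact hq3
    · rcases succ_div_cases (n := q.1) K0 with h1 | ⟨h1, h2, h3⟩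
      · rw [e1, ← e2, h1]
      · refine Relation.ReflTransGen.single ⟨⟨hp1, hp2, hq1, hq2⟩,
          Or.inr (Or.inr (Or.inr ⟨?_, ?_, ?_⟩))⟩
        · simp only [e1]
        · simp only [← e2, h1]
        · refine ⟨q.2 % l ^ r, ?_, ?_⟩
          · rw [h3] at hq3; exact hq3
          · rw [e1, ← e2, h2] at hp3
            simp only [e1, ← e2]
            exact hp3
  have path : ∀ p q, RTG (powerOnes k l h (r + 1) x) p q →
      Relation.ReflTransGen (GStep k l h (dat k l h r) x)
        (p.1 / k ^ r, p.2 / l ^ r) (q.1 / k ^ r, q.2 / l ^ r) := by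
    intro p q hpq
    induction hpq with
    | refl => exact Relation.ReflTransGen.refl
    | tail _ hbc ih => exact ih.trans (step _ _ hbc)
  intro c c' h1 h2 h3 h4 ⟨d, hd⟩ ⟨d', hd'⟩
  have m1 := (mem_O_succ (h := h) hk hl (x := x) (c := c) hd.1 hd.2.1).2 ⟨h1, h2, hd⟩
  have m2 := (mem_O_succ (h := h) hk hl (x := x) (c := c') hd'.1 hd'.2.1).2 ⟨h3, h4, hd'⟩
  have := path _ _ (hC _ m1 _ m2)
  simp only [emb] at this
  rw [(divmod hd.1).1, (divmod hd.2.1).1, (divmod hd'.1).1, (divmod hd'.2.1).1] at this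
  exact this

lemma conn_of_gconn (hk : 2 ≤ k) (hl : 2 ≤ l) {r : ℕ} {x : Bool}
    (hG : GConn k l h (dat k l h r) x) (hC : ∀ y, Conn (powerOnes k l h r y)) :
    Conn (powerOnes k l h (r + 1) x) := by
  have K0 : 0 < k ^ r := pow_pos (by omega) _
  have L0 : 0 < l ^ r := pow_pos (by omega) _
  -- paths inside one block
  have block : ∀ c : ℕ × ℕ, c.1 < k → c.2 < l → ∀ d d', RTG (powerOnes k l h r (h x c.1 c.2)) d d' →
      RTG (powerOnes k l h (r + 1) x) (emb (k ^ r) (l ^ r) c d) (emb (k ^ r) (l ^ r) c d') := by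
    intro c h1 h2 d d' hdd
    induction hdd with
    | refl => exact Relation.ReflTransGen.refl
    | tail hab hbc ih =>
      obtain ⟨a1, a2, a3⟩ := hbc
      refine ih.tail ⟨?_, (mem_O_succ hk hl a2.1 a2.2.1).2 ⟨h1, h2, a2⟩,
        (mem_O_succ hk hl a3.1 a3.2.1).2 ⟨h1, h2, a3⟩⟩
      unfold Adj at *
      simp only [emb]
      omega
  have contH : ∀ c c' : ℕ × ℕ, c.1 < k → c.2 < l → c'.1 < k → c'.2 < l → c.1 = c'.1 →
      c.2 + 1 = c'.2 → Hc k l h r (h x c.1 c.2) (h x c'.1 c'.2) →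
      ∃ e ∈ powerOnes k l h r (h x c.1 c.2), ∃ e' ∈ powerOnes k l h r (h x c'.1 c'.2),
        RTG (powerOnes k l h (r + 1) x) (emb (k ^ r) (l ^ r) c e) (emb (k ^ r) (l ^ r) c' e') := by
    rintro c c' h1 h2 h3 h4 e1 e2 ⟨t, ht1, ht2⟩
    refine ⟨_, ht1, _, ht2, Relation.ReflTransGen.single ⟨?_,
      (mem_O_succ hk hl ht1.1 ht1.2.1).2 ⟨h1, h2, ht1⟩,
      (mem_O_succ hk hl ht2.1 ht2.2.1).2 ⟨h3, h4, ht2⟩⟩⟩
    left
    simp only [emb]
    refine ⟨by rw [e1], Or.inl ?_⟩
    rw [← e2, Nat.add_mul]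
    omega
  have contV : ∀ c c' : ℕ × ℕ, c.1 < k → c.2 < l → c'.1 < k → c'.2 < l → c.2 = c'.2 →
      c.1 + 1 = c'.1 → Vc k l h r (h x c.1 c.2) (h x c'.1 c'.2) →
      ∃ e ∈ powerOnes k l h r (h x c.1 c.2), ∃ e' ∈ powerOnes k l h r (h x c'.1 c'.2),
        RTG (powerOnes k l h (r + 1) x) (emb (k ^ r) (l ^ r) c e) (emb (k ^ r) (l ^ r) c' e') := by
    rintro c c' h1 h2 h3 h4 e1 e2 ⟨t, ht1, ht2⟩
    refine ⟨_, ht1, _, ht2, Relation.ReflTransGen.single ⟨?_,
      (mem_O_succ hk hl ht1.1 ht1.2.1).2 ⟨h1, h2, ht1⟩,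
      (mem_O_succ hk hl ht2.1 ht2.2.1).2 ⟨h3, h4, ht2⟩⟩⟩
    right
    simp only [emb]
    refine ⟨by rw [e1], Or.inl ?_⟩
    rw [← e2, Nat.add_mul]
    omega
  have link : ∀ c c', GStep k l h (dat k l h r) x c c' →
      ∃ e ∈ powerOnes k l h r (h x c.1 c.2), ∃ e' ∈ powerOnes k l h r (h x c'.1 c'.2),
        RTG (powerOnes k l h (r + 1) x) (emb (k ^ r) (l ^ r) c e) (emb (k ^ r) (l ^ r) c' e') := by
    rintro c c' ⟨⟨h1, h2, h3, h4⟩, ⟨e1, e2, e3⟩ | ⟨e1, e2, e3⟩ | ⟨e1, e2, e3⟩ | ⟨e1, e2, e3⟩⟩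
    · exact contH c c' h1 h2 h3 h4 e1 e2 e3
    · obtain ⟨e, he, e', he', hh⟩ := contH c' c h3 h4 h1 h2 e1.symm e2 e3
      exact ⟨e', he', e, he, rtg_symm hh⟩
    · exact contV c c' h1 h2 h3 h4 e1 e2 e3
    · obtain ⟨e, he, e', he', hh⟩ := contV c' c h3 h4 h1 h2 e1.symm e2 e3
      exact ⟨e', he', e, he, rtg_symm hh⟩
  have lift : ∀ c c', Relation.ReflTransGen (GStep k l h (dat k l h r) x) c c' →
      c.1 < k → c.2 < l →
      ∀ d ∈ powerOnes k l h r (h x c.1 c.2), ∀ d' ∈ powerOnes k l h r (h x c'.1 c'.2),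
        RTG (powerOnes k l h (r + 1) x) (emb (k ^ r) (l ^ r) c d) (emb (k ^ r) (l ^ r) c' d') := by
    intro c c' hcc h1 h2
    induction hcc with
    | refl => exact fun d hd d' hd' => block c h1 h2 _ _ (hC _ _ hd _ hd')
    | tail hab hbc ih =>
      intro d hd d' hd'
      obtain ⟨e, he, e', he', hee⟩ := link _ _ hbc
      exact ((ih d hd e he).trans hee).trans
        (block _ hbc.1.2.2.1 hbc.1.2.2.2 _ _ (hC _ _ he' _ hd'))
  intro p hp q hq
  obtain ⟨⟨hp1, hp2, hp3⟩, hpe⟩ := exists_emb hk hl hp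
  obtain ⟨⟨hq1, hq2, hq3⟩, hqe⟩ := exists_emb hk hl hq
  rw [← hpe, ← hqe]
  exact lift _ _ (hG _ _ hp1 hp2 hq1 hq2 ⟨_, hp3⟩ ⟨_, hq3⟩) hp1 hp2 _ hp3 _ hq3

/-- the next data -/
def nextD (k l : ℕ) (h : Bool → Arr) (D : Data) : Data :=
  (fun x y => ∃ c < k, D.1 (h x c (l - 1)) (h y c 0),
   fun x y => ∃ c < l, D.2.1 (h x (k - 1) c) (h y 0 c),
   fun x => ∃ c : ℕ × ℕ, c.1 < k ∧ c.2 < l ∧ D.2.2 (h x c.1 c.2))

lemma dat_succ (hk : 2 ≤ k) (hl : 2 ≤ l) (r : ℕ) :
    dat k l h (r + 1) = nextD k l h (dat k l h r) := by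
  have K0 : 0 < k ^ r := pow_pos (by omega) _
  have L0 : 0 < l ^ r := pow_pos (by omega) _
  have eL : l ^ (r + 1) - 1 = (l - 1) * l ^ r + (l ^ r - 1) := by
    rw [pow_succ']
    obtain ⟨m, rfl⟩ : ∃ m, l = m + 1 := ⟨l - 1, by omega⟩
    rw [Nat.add_sub_cancel, Nat.add_mul, one_mul]
    omega
  have eK : k ^ (r + 1) - 1 = (k - 1) * k ^ r + (k ^ r - 1) := by
    rw [pow_succ']
    obtain ⟨m, rfl⟩ : ∃ m, k = m + 1 := ⟨k - 1, by omega⟩
    rw [Nat.add_sub_cancel, Nat.add_mul, one_mul]
    omega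
  unfold dat nextD
  refine Prod.ext ?_ (Prod.ext ?_ ?_)
  · funext x y
    refine propext ⟨?_, ?_⟩
    · rintro ⟨t, h1, h2⟩
      obtain ⟨⟨a1, a2, a3⟩, _⟩ := exists_emb hk hl h1
      obtain ⟨⟨b1, b2, b3⟩, _⟩ := exists_emb hk hl h2
      simp only at a1 a2 a3 b1 b2 b3
      rw [eL, (divmod (by omega : l ^ r - 1 < l ^ r)).1,
        (divmod (by omega : l ^ r - 1 < l ^ r)).2] at a3
      rw [Nat.zero_div, Nat.zero_mod] at b3
      exact ⟨t / k ^ r, a1, t % k ^ r, a3, b3⟩
    · rintro ⟨c, hc, t, h1, h2⟩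
      refine ⟨c * k ^ r + t, ?_, ?_⟩
      · have := (mem_O_succ (h := h) hk hl (x := x) (c := (c, l - 1)) h1.1 h1.2.1).2
          ⟨hc, by show l - 1 < l; omega, h1⟩
        simp only [emb] at this
        rw [eL]
        exact this
      · have := (mem_O_succ (h := h) hk hl (x := y) (c := (c, 0)) h2.1 h2.2.1).2
          ⟨hc, by show 0 < l; omega, h2⟩
        simp only [emb] at this
        rw [Nat.zero_mul, Nat.zero_add] at this
        exact this
  · funext x y
    refine propext ⟨?_, ?_⟩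
    · rintro ⟨t, h1, h2⟩
      obtain ⟨⟨a1, a2, a3⟩, _⟩ := exists_emb hk hl h1
      obtain ⟨⟨b1, b2, b3⟩, _⟩ := exists_emb hk hl h2
      simp only at a1 a2 a3 b1 b2 b3
      rw [eK, (divmod (by omega : k ^ r - 1 < k ^ r)).1,
        (divmod (by omega : k ^ r - 1 < k ^ r)).2] at a3
      rw [Nat.zero_div, Nat.zero_mod] at b3
      exact ⟨t / l ^ r, a2, t % l ^ r, a3, b3⟩
    · rintro ⟨c, hc, t, h1, h2⟩
      refine ⟨c * l ^ r + t, ?_, ?_⟩
      · have := (mem_O_succ (h := h) hk hl (x := x) (c := (k - 1, c)) h1.1 h1.2.1).2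
          ⟨by show k - 1 < k; omega, hc, h1⟩
        simp only [emb] at this
        rw [eK]
        exact this
      · have := (mem_O_succ (h := h) hk hl (x := y) (c := (0, c)) h2.1 h2.2.1).2
          ⟨by show 0 < k; omega, hc, h2⟩
        simp only [emb] at this
        rw [Nat.zero_mul, Nat.zero_add] at this
        exact this
  · funext x
    refine propext ⟨?_, ?_⟩
    · rintro ⟨p, hp⟩
      obtain ⟨⟨a1, a2, a3⟩, _⟩ := exists_emb hk hl hp
      exact ⟨(p.1 / k ^ r, p.2 / l ^ r), a1, a2, _, a3⟩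
    · rintro ⟨c, h1, h2, d, hd⟩
      exact ⟨_, (mem_O_succ (h := h) hk hl (x := x) (c := c) hd.1 hd.2.1).2 ⟨h1, h2, hd⟩⟩

lemma dat_repeat : ∃ i j : ℕ, i < j ∧ j ≤ 1024 ∧ dat k l h i = dat k l h j := by
  classical
  have hcard : Fintype.card Data < Fintype.card (Fin 1025) := by
    simp [Data, Fintype.card_prod, Fintype.card_pi]
  obtain ⟨a, b, hab, he⟩ := Fintype.exists_ne_map_eq_of_card_lt
    (fun i : Fin 1025 => dat k l h i.1) hcard
  rcases lt_or_gt_of_ne hab with hlt | hlt
  · exact ⟨a.1, b.1, hlt, by have := b.2; omega, he⟩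
  · exact ⟨b.1, a.1, hlt, by have := a.2; omega, he.symm⟩

/-- A finite test: if `h^r(0)` and `h^r(1)` are connected for `r ≤ 1024`, they are connected for
all `r`. -/
lemma all_conn (hk : 2 ≤ k) (hl : 2 ≤ l) (hC : ∀ r ≤ 1024, ∀ x, Conn (powerOnes k l h r x)) :
    ∀ r x, Conn (powerOnes k l h r x) := by
  obtain ⟨i, j, hij, hj, hd⟩ := dat_repeat (k := k) (l := l) (h := h)
  have shift : ∀ s, dat k l h (i + s) = dat k l h (j + s) := by
    intro s
    induction s with
    | zero => exact hd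
    | succ s ih =>
      rw [← Nat.add_assoc, ← Nat.add_assoc, dat_succ hk hl, dat_succ hk hl, ih]
  intro r
  induction r using Nat.strong_induction_on with
  | _ r ih =>
    intro x
    by_cases hr : r ≤ 1024
    · exact hC r hr x
    · obtain ⟨m, rfl⟩ : ∃ m, r = (j + m) + 1 := ⟨r - 1 - j, by omega⟩
      refine conn_of_gconn hk hl ?_ (fun y => ih _ (by omega) y)
      rw [← shift m]
      exact gconn_of_conn hk hl (ih _ (by omega) x)

lemma ones_of_all (hk : 2 ≤ k) (hl : 2 ≤ l) {a : Bool} {A : Arr}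
    (hA : IsFixedPoint k l h a A) (hC : ∀ r, Conn (powerOnes k l h r a)) : Conn (ones A) := by
  intro p hp q hq
  have bd : ∀ n N : ℕ, n ≤ N → ∀ m, 2 ≤ m → n < m ^ N := fun n N hn m hm =>
    lt_of_lt_of_le (Nat.lt_pow_self (by omega)) (Nat.pow_le_pow_right (by omega) hn)
  set N := p.1 + p.2 + q.1 + q.2 with hN
  have hsub : ∀ z, z ∈ powerOnes k l h N a → z ∈ ones A := by
    rintro z ⟨h1, h2, h3⟩
    show A z.1 z.2 = true
    rw [hA N _ _ h1 h2]
    exact h3
  have hmem : ∀ z : ℕ × ℕ, z ∈ ones A → z.1 ≤ N → z.2 ≤ N → z ∈ powerOnes k l h N a := by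
    intro z hz h1 h2
    have b1 := bd _ _ h1 k hk
    have b2 := bd _ _ h2 l hl
    refine ⟨b1, b2, ?_⟩
    rw [← hA N _ _ b1 b2]
    exact hz
  have := hC N p (hmem p hp (by omega) (by omega)) q (hmem q hq (by omega) (by omega))
  exact Relation.ReflTransGen.mono (fun x y hxy => ⟨hxy.1, hsub _ hxy.2.1, hsub _ hxy.2.2⟩)
    _ _ this

end General

lemma tr_onesIn (k l : ℕ) (P : Arr) : tr (onesIn k l P) = onesIn l k (transp P) := by
  ext p
  exact ⟨fun h => ⟨h.2.1, h.1, h.2.2⟩, fun h => ⟨h.2.1, h.1, h.2.2⟩⟩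

lemma conn_of_chain' {n k l : ℕ} {P : Arr} {S : Set (ℕ × ℕ)} (H : Sub k l (onesIn k l P) S)
    (hD : ChainOK n k l P ∨ ChainOK n l k (transp P))
    (hor : HorOK k l P) (ver : VerOK k l P) : Conn S := by
  rcases hD with h | h
  · exact conn_of_chain H h.1 h.2 hor ver
  · have H' := sub_tr H
    rw [tr_onesIn] at H'
    have hor' : HorOK l k (transp P) := by
      rcases ver with ⟨j, h1, h2, h3⟩ | h1
      · exact Or.inl ⟨j, h1, h2, h3⟩
      · exact Or.inr fun i hi j hj hij => h1 j hj i hi hij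
    have ver' : VerOK l k (transp P) := by
      rcases hor with ⟨j, h1, h2, h3⟩ | h1
      · exact Or.inl ⟨j, h1, h2, h3⟩
      · exact Or.inr fun i hi j hj hij => h1 j hj i hi hij
    exact conn_tr (conn_of_chain H' h.1 h.2 hor' ver')

/-- The hypotheses on a morphism `h` with `k × l` blocks, letter `1` and fixed point `A`:
`h(0)` is the zero block and `h` is prolongable on `1`. -/
def ZeroMorphism (k l : ℕ) (h : Bool → Arr) (A : Arr) : Prop :=
  2 ≤ k ∧ 2 ≤ l ∧ (∀ i < k, ∀ j < l, h false i j = false) ∧ h true 0 0 = true ∧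
    IsFixedPoint k l h true A

/-- Connectivity criteria for one morphism with block `P = h(1)`. -/
def Criteria (k l : ℕ) (P A : Arr) : Prop :=
  (Conn (ones A) → HorOK k l P ∧ VerOK k l P) ∧
  (Conn (onesIn k l P) → (Conn (ones A) ↔ HorOK k l P ∧ VerOK k l P)) ∧
  (Conn (ones A) → ¬ Conn (onesIn k l P) →
    ∀ c ∈ onesIn k l P, Crossing k l (onesIn k l P) c) ∧
  ((∀ j < l, P 0 j = true) → (∀ i < k, P i 0 = true) →
    (Conn (ones A) ↔ Conn (onesIn k l P))) ∧
  (∀ n, ChainOK n k l P ∨ ChainOK n l k (transp P) →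
    HorOK k l P → VerOK k l P → Conn (ones A))

/-- **Connectivity of `h^ω(a)`**: criteria for morphisms with `h(0) = 0`, an example, and a finite
test for arbitrary morphisms. -/
theorem result :
    (∀ (k l : ℕ) (h : Bool → Arr) (A : Arr), ZeroMorphism k l h A →
      Criteria k l (h true) A) ∧
    (∃ (h : Bool → Arr) (A : Arr), ZeroMorphism 5 5 h A ∧ Conn (ones A) ∧
      ¬ Conn (onesIn 5 5 (h true))) ∧
    (∀ (k l : ℕ) (h : Bool → Arr), 2 ≤ k → 2 ≤ l →
      (∀ r ≤ 1024, ∀ x, Conn (powerOnes k l h r x)) →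
        (∀ r x, Conn (powerOnes k l h r x)) ∧
        ∀ (a : Bool) (A : Arr), IsFixedPoint k l h a A → Conn (ones A)) := by
  have part1 : ∀ (k l : ℕ) (h : Bool → Arr) (A : Arr), ZeroMorphism k l h A →
      Criteria k l (h true) A := by
    rintro k l h A ⟨hk, hl, h0, h1, hA⟩
    have H := sub_of k l h A hk hl h0 h1 hA
    have nec : Conn (ones A) → HorOK k l (h true) ∧ VerOK k l (h true) := fun hS =>
      ⟨(horS_iff _ hl).2 (hor_of_conn H hS), (verS_iff _ hk).2 (ver_of_conn H hS)⟩
    have suf : Conn (onesIn k l (h true)) → HorOK k l (h true) ∧ VerOK k l (h true) →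
        Conn (ones A) := fun hP hh =>
      conn_of H hP ((horS_iff _ hl).1 hh.1) ((verS_iff _ hk).1 hh.2)
    refine ⟨nec, fun hP => ⟨nec, suf hP⟩, fun hS hP => crossing H hS hP,
      fun hrow hcol => ⟨fun hS => ?_, fun hP => ?_⟩,
      fun n hD hor ver => conn_of_chain' H hD hor ver⟩
    · exact conn_block H hS (fun j hj => ⟨by show 0 < k; omega, hj, hrow j hj⟩)
        (fun i hi => ⟨hi, by show 0 < l; omega, hcol i hi⟩)
    · refine suf hP ⟨Or.inl ⟨0, by omega, h1, hrow _ (by omega)⟩,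
        Or.inl ⟨0, by omega, h1, hcol _ (by omega)⟩⟩
  refine ⟨part1, ?_, fun k l h hk hl hC => ⟨all_conn hk hl hC, fun a A hA =>
    ones_of_all hk hl hA (fun r => all_conn hk hl hC r a)⟩⟩
  let h : Bool → Arr := fun b => if b then exBlock else fun _ _ => false
  obtain ⟨A, hA⟩ := exists_fixed 5 5 h true (by omega) (by omega) (by decide)
  have hz : ZeroMorphism 5 5 h A := by
    refine ⟨by omega, by omega, fun _ _ _ _ => rfl, by decide, hA⟩
  refine ⟨h, A, hz, ?_, ex_not⟩
  refine (part1 5 5 h A hz).2.2.2.2 2 (Or.inl ⟨?_, ex_rep⟩) ?_ ?_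
  · intro i hi j hj hij
    obtain ⟨h1, h2, h3, h4⟩ := ex_run i hi j hj hij
    exact ⟨exStart i j, h1, h2, h3, h4⟩
  · exact Or.inl ⟨0, by omega, by decide, by decide⟩
  · exact Or.inl ⟨0, by omega, by decide, by decide⟩

end Pool.Agent.Results.MP_fadef1_lc.ZeroBlock
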